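import Mathlib

/-!
Lazy steps on functions on a group, the two-block scheme and the word lemma
(for MP_a2f62e_al).
-/

set_option autoImplicit false

namespace Pool.Agent.Helper75.MX

open Finset

section basics

variable {G : Type} [Group G]

/-- left translate of a function -/
def L (g : G) (f : G → ℝ) : G → ℝ := fun x => f (g⁻¹ * x)

/-- one lazy step: multiply on the left by `g` with probability `p` -/
def lz (g : G) (p : ℝ) (f : G → ℝ) : G → ℝ := (1 - p) • f + p • L g f

/-- apply a list of lazy steps, the head of the list last -/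
def app (l : List (G × ℝ)) (f : G → ℝ) : G → ℝ := l.foldr (fun a f => lz a.1 a.2 f) f

/-- all probabilities of the list are in `[0,1]` -/
def Ok (l : List (G × ℝ)) : Prop := ∀ a ∈ l, 0 ≤ a.2 ∧ a.2 ≤ 1

/-- `h` is obtained from `f` by at most `k` lazy steps -/
def Reach (k : ℕ) (f h : G → ℝ) : Prop := ∃ l : List (G × ℝ), l.length ≤ k ∧ Ok l ∧ app l f = h

theorem L_one (f : G → ℝ) : L 1 f = f := by funext x; simp [L]

theorem L_mul (g h : G) (f : G → ℝ) : L (g * h) f = L g (L h f) := by
  funext x; simp [L, mul_assoc]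

theorem L_add (g : G) (f h : G → ℝ) : L g (f + h) = L g f + L g h := rfl

theorem L_smul (g : G) (c : ℝ) (f : G → ℝ) : L g (c • f) = c • L g f := rfl

theorem L_zero (g : G) : L g (0 : G → ℝ) = 0 := rfl

theorem L_sum {ι : Type} (s : Finset ι) (g : G) (f : ι → G → ℝ) :
    L g (∑ i ∈ s, f i) = ∑ i ∈ s, L g (f i) := by
  funext x; simp [L, Finset.sum_apply]

theorem lz_add (g : G) (p : ℝ) (f h : G → ℝ) : lz g p (f + h) = lz g p f + lz g p h := by
  simp only [lz, L_add, smul_add]; abel

theorem lz_smul (g : G) (p c : ℝ) (f : G → ℝ) : lz g p (c • f) = c • lz g p f := by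
  simp only [lz, L_smul, smul_add, smul_comm c]

theorem app_nil (f : G → ℝ) : app [] f = f := rfl

theorem app_cons (a : G × ℝ) (l : List (G × ℝ)) (f : G → ℝ) :
    app (a :: l) f = lz a.1 a.2 (app l f) := rfl

theorem app_append (l l' : List (G × ℝ)) (f : G → ℝ) : app (l ++ l') f = app l (app l' f) := by
  simp [app, List.foldr_append]

theorem app_smul (l : List (G × ℝ)) (c : ℝ) (f : G → ℝ) : app l (c • f) = c • app l f := by
  induction l with
  | nil => rfl
  | cons a l ih => rw [app_cons, app_cons, ih, lz_smul]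

theorem Reach.refl (f : G → ℝ) : Reach 0 f f :=
  ⟨[], le_rfl, by intro a ha; simp at ha, rfl⟩

theorem Reach.trans {k m : ℕ} {f h j : G → ℝ} (h1 : Reach k f h) (h2 : Reach m h j) :
    Reach (k + m) f j := by
  obtain ⟨l, hl, ho, rfl⟩ := h1
  obtain ⟨l', hl', ho', rfl⟩ := h2
  refine ⟨l' ++ l, ?_, ?_, app_append _ _ _⟩
  · rw [List.length_append]; omega
  · intro a ha
    rcases List.mem_append.1 ha with h | h
    · exact ho' a h
    · exact ho a h

theorem Reach.mono {k m : ℕ} {f h : G → ℝ} (h1 : Reach k f h) (hkm : k ≤ m) : Reach m f h := by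
  obtain ⟨l, hl, ho, hf⟩ := h1
  exact ⟨l, hl.trans hkm, ho, hf⟩

theorem Reach.step {g : G} {p : ℝ} (h0 : 0 ≤ p) (h1 : p ≤ 1) (f : G → ℝ) :
    Reach 1 f (lz g p f) := by
  refine ⟨[(g, p)], by simp, ?_, rfl⟩
  intro a ha
  simp only [List.mem_singleton] at ha
  subst ha
  exact ⟨h0, h1⟩

end basics

/-! ## Words -/

/-- action of a word on pairs, the head of the word last -/
def act : List Bool → ℕ × ℕ → ℕ × ℕ
  | [], v => v
  | true :: w, v => ((act w v).1 + (act w v).2, (act w v).2)
  | false :: w, v => ((act w v).1, (act w v).1 + (act w v).2)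

/-- the pair of a word -/
def vec (w : List Bool) : ℕ × ℕ := act w (1, 1)

theorem vec_true (w : List Bool) : vec (true :: w) = ((vec w).1 + (vec w).2, (vec w).2) := rfl

theorem vec_false (w : List Bool) : vec (false :: w) = ((vec w).1, (vec w).1 + (vec w).2) := rfl

theorem vec_pos (w : List Bool) : 0 < (vec w).1 ∧ 0 < (vec w).2 := by
  induction w with
  | nil => exact ⟨Nat.one_pos, Nat.one_pos⟩
  | cons b w ih =>
    cases b
    · rw [vec_false]; exact ⟨ih.1, by have := ih.1; simp only; omega⟩
    · rw [vec_true]; exact ⟨by have := ih.1; simp only; omega, ih.2⟩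

theorem act_append (w w' : List Bool) (v : ℕ × ℕ) : act (w ++ w') v = act w (act w' v) := by
  induction w with
  | nil => rfl
  | cons b w ih => cases b <;> simp [act, ih]

/-- adjunction -/
theorem act_adj (w : List Bool) (v : ℕ × ℕ) :
    (act (w.map not).reverse v).1 + (act (w.map not).reverse v).2
      = (vec w).1 * v.1 + (vec w).2 * v.2 := by
  induction w generalizing v with
  | nil => simp [act, vec]
  | cons b w ih =>
    rw [List.map_cons, List.reverse_cons, act_append, ih]
    cases b
    · rw [vec_false]; simp only [Bool.not_false, act]; ring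
    · rw [vec_true]; simp only [Bool.not_true, act]; ring

/-- the cross product of two words with different heads is again a continuant -/
theorem cross_eq (X Y : List Bool) :
    ((vec (true :: X)).1 * (vec (false :: Y)).2 : ℕ) =
      (vec (true :: ((X.map not).reverse ++ true :: Y))).1
        + (vec (false :: Y)).1 * (vec (true :: X)).2 := by
  have h := act_adj X (vec (true :: Y))
  have e : vec ((X.map not).reverse ++ true :: Y) = act ((X.map not).reverse) (vec (true :: Y)) := by
    unfold vec
    rw [act_append]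
  have e1 : (vec (true :: ((X.map not).reverse ++ true :: Y))).1
      = (vec ((X.map not).reverse ++ true :: Y)).1
        + (vec ((X.map not).reverse ++ true :: Y)).2 := by rw [vec_true]
  rw [e1, e, h, vec_true, vec_false, vec_true]
  simp only
  ring

/-- dependence of the pairs of two words modulo `p` -/
def Dep (p : ℕ) (w w' : List Bool) : Prop :=
  ((vec w).1 * (vec w').2 : ZMod p) = ((vec w').1 * (vec w).2 : ZMod p)

theorem Dep.symm {p : ℕ} {w w' : List Bool} (h : Dep p w w') : Dep p w' w := by
  unfold Dep at *; exact h.symm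

theorem dvd_of_dep {p : ℕ} {X Y : List Bool} (h : Dep p (true :: X) (false :: Y)) :
    p ∣ (vec (true :: ((X.map not).reverse ++ true :: Y))).1 := by
  have hc := cross_eq X Y
  have hc' := congrArg (Nat.cast : ℕ → ZMod p) hc
  unfold Dep at h
  push_cast at hc'
  rw [h] at hc'
  rw [← ZMod.natCast_eq_zero_iff]
  have := hc'
  linear_combination -hc'

theorem exists_dvd_of_dep {p : ℕ} : ∀ {w w' : List Bool}, w.length = w'.length → w ≠ w' →
    Dep p w w' → ∃ u : List Bool, u.length ≤ 2 * w.length ∧ p ∣ (vec u).1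
  | [], [], _, h, _ => absurd rfl h
  | [], _ :: _, h, _, _ => by simp at h
  | _ :: _, [], h, _, _ => by simp at h
  | true :: X, true :: Y, hl, hne, hd => by
    have hl' : X.length = Y.length := by simpa using hl
    have hne' : X ≠ Y := fun h => hne (by rw [h])
    have hd' : Dep p X Y := by
      unfold Dep at hd ⊢
      rw [vec_true, vec_true] at hd
      push_cast at hd
      linear_combination hd
    obtain ⟨u, hu, hp⟩ := exists_dvd_of_dep hl' hne' hd'
    exact ⟨u, by simp only [List.length_cons]; omega, hp⟩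
  | false :: X, false :: Y, hl, hne, hd => by
    have hl' : X.length = Y.length := by simpa using hl
    have hne' : X ≠ Y := fun h => hne (by rw [h])
    have hd' : Dep p X Y := by
      unfold Dep at hd ⊢
      rw [vec_false, vec_false] at hd
      push_cast at hd
      linear_combination hd
    obtain ⟨u, hu, hp⟩ := exists_dvd_of_dep hl' hne' hd'
    exact ⟨u, by simp only [List.length_cons]; omega, hp⟩
  | true :: X, false :: Y, hl, _, hd => by
    have hl' : X.length = Y.length := by simpa using hl
    refine ⟨_, ?_, dvd_of_dep hd⟩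
    simp only [List.length_cons, List.length_append, List.length_reverse, List.length_map]
    omega
  | false :: X, true :: Y, hl, _, hd => by
    have hl' : X.length = Y.length := by simpa using hl
    refine ⟨_, ?_, dvd_of_dep hd.symm⟩
    simp only [List.length_cons, List.length_append, List.length_reverse, List.length_map]
    omega

/-- the class of a word in the projective line over `ZMod p` -/
noncomputable def cls (p : ℕ) [Fact p.Prime] (w : List Bool) : Option (ZMod p) :=
  if ((vec w).2 : ZMod p) = 0 then none else some (((vec w).1 : ZMod p) / ((vec w).2 : ZMod p))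

theorem dep_of_cls {p : ℕ} [Fact p.Prime] {w w' : List Bool} (h : cls p w = cls p w') :
    Dep p w w' := by
  unfold cls at h
  unfold Dep
  by_cases h1 : ((vec w).2 : ZMod p) = 0
  · by_cases h2 : ((vec w').2 : ZMod p) = 0
    · rw [h1, h2]; simp
    · rw [if_pos h1, if_neg h2] at h; simp at h
  · by_cases h2 : ((vec w').2 : ZMod p) = 0
    · rw [if_neg h1, if_pos h2] at h; simp at h
    · rw [if_neg h1, if_neg h2, Option.some.injEq] at h
      field_simp at h
      linear_combination h

theorem exists_word (p : ℕ) [Fact p.Prime] :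
    ∃ u : List Bool, u.length ≤ 2 * (Nat.log 2 (p + 1) + 1) ∧ p ∣ (vec u).1 := by
  set m := Nat.log 2 (p + 1) + 1 with hm
  have hcard : Fintype.card (Option (ZMod p)) < Fintype.card (Fin m → Bool) := by
    rw [Fintype.card_option, ZMod.card, Fintype.card_fun, Fintype.card_bool, Fintype.card_fin]
    exact Nat.lt_pow_succ_log_self (by norm_num) (p + 1)
  obtain ⟨x, y, hxy, he⟩ := Fintype.exists_ne_map_eq_of_card_lt
    (fun x : Fin m → Bool => cls p (List.ofFn x)) hcard
  have hne : List.ofFn x ≠ List.ofFn y := fun h => hxy (List.ofFn_injective h)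
  obtain ⟨u, hu, hp⟩ := exists_dvd_of_dep (p := p) (by simp) hne (dep_of_cls he)
  exact ⟨u, by simpa using hu, hp⟩

/-- cost of averaging over a cyclic group of order `p` -/
def cost (p : ℕ) : ℕ :=
  if p = 3 then 2 else if p = 5 then 3 else if p = 7 then 4 else 2 * (Nat.log 2 (p + 1) + 1)

theorem exists_word_cost (p : ℕ) [Fact p.Prime] :
    ∃ u : List Bool, u.length ≤ cost p ∧ p ∣ (vec u).1 := by
  unfold cost
  split_ifs with h3 h5 h7
  · subst h3; exact ⟨[true, true], by simp, by decide⟩
  · subst h5; exact ⟨[true, true, false], by simp, by decide⟩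
  · subst h7; exact ⟨[true, true, false, false], by simp, by decide⟩
  · exact exists_word p

theorem cost_bound {p : ℕ} (hp : p.Prime) (h2 : p ≠ 2) : 2 ^ (2 + 2 * cost p) ≤ p ^ 6 := by
  by_cases h3 : p = 3
  · subst h3; decide
  by_cases h5 : p = 5
  · subst h5; decide
  by_cases h7 : p = 7
  · subst h7; decide
  have h11 : 11 ≤ p := by
    by_contra hlt
    push Not at hlt
    interval_cases p <;> first | omega | (exact absurd hp (by decide))
  have hc : cost p = 2 * (Nat.log 2 (p + 1) + 1) := by
    unfold cost; rw [if_neg h3, if_neg h5, if_neg h7]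
  rw [hc]
  have hlog : 2 ^ Nat.log 2 (p + 1) ≤ p + 1 := Nat.pow_log_le_self 2 (by omega)
  have e : 2 ^ (2 + 2 * (2 * (Nat.log 2 (p + 1) + 1))) = 64 * (2 ^ Nat.log 2 (p + 1)) ^ 4 := by
    rw [← pow_mul]; ring
  rw [e]
  calc 64 * (2 ^ Nat.log 2 (p + 1)) ^ 4 ≤ 64 * (p + 1) ^ 4 := by gcongr
    _ ≤ p ^ 6 := by
      have h1 : 11 * (p + 1) ≤ 12 * p := by omega
      have h2 : 11 ^ 4 * (p + 1) ^ 4 ≤ 12 ^ 4 * p ^ 4 := by
        rw [← mul_pow, ← mul_pow]; gcongr
      have h3 : 64 * 12 ^ 4 ≤ 11 ^ 4 * p ^ 2 := by nlinarith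
      have h4 : 11 ^ 4 * (64 * (p + 1) ^ 4) ≤ 11 ^ 4 * p ^ 6 := by
        calc 11 ^ 4 * (64 * (p + 1) ^ 4) = 64 * (11 ^ 4 * (p + 1) ^ 4) := by ring
          _ ≤ 64 * (12 ^ 4 * p ^ 4) := by gcongr
          _ = (64 * 12 ^ 4) * p ^ 4 := by ring
          _ ≤ (11 ^ 4 * p ^ 2) * p ^ 4 := by gcongr
          _ = 11 ^ 4 * p ^ 6 := by ring
      exact Nat.le_of_mul_le_mul_left h4 (by norm_num)

end Pool.Agent.Helper75.MX
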