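import Pool.Agent.Helper75.MX.Basic

/-!
The two-block scheme: averaging over a cyclic group of odd prime order inverted by an involution.
-/

set_option autoImplicit false
set_option linter.unusedSectionVars false

namespace Pool.Agent.Helper75.MX

open Finset

variable {G : Type} [Group G]

/-- sum over a block of consecutive indices -/
def S (E : ℤ → G → ℝ) (u : ℤ) (b : ℕ) : G → ℝ := ∑ j ∈ range b, E (u + j)

theorem S_zero (E : ℤ → G → ℝ) (u : ℤ) : S E u 0 = 0 := by simp [S]

theorem S_one (E : ℤ → G → ℝ) (u : ℤ) : S E u 1 = E u := by simp [S]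

theorem S_add (E : ℤ → G → ℝ) (u : ℤ) (a b : ℕ) : S E u (a + b) = S E u a + S E (u + a) b := by
  unfold S
  rw [Finset.sum_range_add]
  congr 1
  apply Finset.sum_congr rfl
  intro j _
  push_cast
  ring_nf

theorem S_refl {E : ℤ → G → ℝ} {g : ℤ → G} (h : ∀ c x, L (g c) (E x) = E (c - x)) (c u : ℤ)
    (b : ℕ) : L (g c) (S E u b) = S E (c - u - b + 1) b := by
  unfold S
  rw [L_sum]
  have e : ∀ j ∈ range b, L (g c) (E (u + j)) = E (c - u - j) := by
    intro j _
    rw [h]; ring_nf
  rw [Finset.sum_congr rfl e]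
  rw [← Finset.sum_range_reflect]
  apply Finset.sum_congr rfl
  intro j hj
  have hj' := Finset.mem_range.1 hj
  congr 1
  have : ((b - 1 - j : ℕ) : ℤ) = b - 1 - j := by omega
  rw [this]
  ring

/-- the two-block state -/
noncomputable def st (E : ℤ → G → ℝ) (α β N : ℝ) (u : ℤ) (b s : ℕ) : G → ℝ :=
  (α / N) • S E u b + (β / N) • S E (u + b) s

theorem st_true {E : ℤ → G → ℝ} {g : ℤ → G} (h : ∀ c x, L (g c) (E x) = E (c - x))
    {α β : ℝ} (hα : 0 < α) (hβ : 0 < β) (N : ℝ) (u : ℤ) (b s : ℕ) :
    lz (g (2 * u + 2 * b + s - 1)) (β / (α + β)) (st E (α + β) β N u b s)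
      = st E α β N u b (s + b) := by
  have hs : α + β ≠ 0 := by positivity
  unfold lz st
  rw [L_add, L_smul, L_smul, S_refl h, S_refl h]
  have e1 : (2 * u + 2 * b + s - 1 : ℤ) - u - b + 1 = u + b + s := by ring
  have e2 : (2 * u + 2 * b + s - 1 : ℤ) - (u + b) - s + 1 = u + b := by ring
  rw [e1, e2, S_add]
  have c1 : (1 - β / (α + β)) * ((α + β) / N) = α / N := by
    rw [one_sub_div hs]
    simp only [add_sub_cancel_right]
    rw [div_mul_div_comm, mul_comm (α + β) N, mul_div_mul_right _ _ hs]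
  have c2 : (β / (α + β)) * ((α + β) / N) = β / N := by
    rw [div_mul_div_comm, mul_comm (α + β) N, mul_div_mul_right _ _ hs]
  have c3 : (1 - β / (α + β)) * (β / N) + (β / (α + β)) * (β / N) = β / N := by ring
  have : (1 - β / (α + β)) • (((α + β) / N) • S E u b + (β / N) • S E (u + b) s)
      + (β / (α + β)) • (((α + β) / N) • S E (u + b + s) b + (β / N) • S E (u + b) s)
      = ((1 - β / (α + β)) * ((α + β) / N)) • S E u b
        + (((1 - β / (α + β)) * (β / N) + (β / (α + β)) * (β / N)) • S E (u + b) s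
        + ((β / (α + β)) * ((α + β) / N)) • S E (u + b + s) b) := by
    simp only [smul_add, smul_smul, add_smul]; abel
  rw [this, c1, c2, c3, smul_add]

theorem st_false {E : ℤ → G → ℝ} {g : ℤ → G} (h : ∀ c x, L (g c) (E x) = E (c - x))
    {α β : ℝ} (hα : 0 < α) (hβ : 0 < β) (N : ℝ) (u : ℤ) (b s : ℕ) :
    lz (g (2 * u + b - 1)) (α / (α + β)) (st E α (α + β) N u b s)
      = st E α β N (u - s) (s + b) s := by
  have hs : α + β ≠ 0 := by positivity
  unfold lz st
  rw [L_add, L_smul, L_smul, S_refl h, S_refl h]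
  have e1 : (2 * u + b - 1 : ℤ) - u - b + 1 = u := by ring
  have e2 : (2 * u + b - 1 : ℤ) - (u + b) - s + 1 = u - s := by ring
  have e3 : u - s + ((s + b : ℕ) : ℤ) = u + b := by push_cast; ring
  have e4 : S E (u - s) (s + b) = S E (u - s) s + S E u b := by
    rw [S_add]; congr 2; ring
  rw [e1, e2, e3, e4]
  have c1 : (1 - α / (α + β)) * ((α + β) / N) = β / N := by
    rw [one_sub_div hs]
    simp only [add_sub_cancel_left]
    rw [div_mul_div_comm, mul_comm (α + β) N, mul_div_mul_right _ _ hs]
  have c2 : (α / (α + β)) * ((α + β) / N) = α / N := by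
    rw [div_mul_div_comm, mul_comm (α + β) N, mul_div_mul_right _ _ hs]
  have c3 : (1 - α / (α + β)) * (α / N) + (α / (α + β)) * (α / N) = α / N := by ring
  have : (1 - α / (α + β)) • ((α / N) • S E u b + ((α + β) / N) • S E (u + b) s)
      + (α / (α + β)) • ((α / N) • S E u b + ((α + β) / N) • S E (u - s) s)
      = ((1 - α / (α + β)) * (α / N) + (α / (α + β)) * (α / N)) • S E u b
        + (((1 - α / (α + β)) * ((α + β) / N)) • S E (u + b) s
        + ((α / (α + β)) * ((α + β) / N)) • S E (u - s) s) := by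
    simp only [smul_add, smul_smul, add_smul]; abel
  rw [this, c1, c2, c3, smul_add]
  abel

/-- running a word -/
theorem run_word {E : ℤ → G → ℝ} {g : ℤ → G} (h : ∀ c x, L (g c) (E x) = E (c - x)) (N : ℝ) :
    ∀ (w : List Bool) (u : ℤ) (b s : ℕ), ∃ u' : ℤ,
      Reach w.length (st E (vec w).1 (vec w).2 N u b s)
        ((1 / N) • S E u' ((vec w).1 * b + (vec w).2 * s))
  | [], u, b, s => by
    refine ⟨u, ?_⟩
    have : st E ((vec []).1 : ℕ) ((vec []).2 : ℕ) N u b s
        = (1 / N) • S E u ((vec []).1 * b + (vec []).2 * s) := by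
      have e1 : (vec []).1 = 1 := rfl
      have e2 : (vec []).2 = 1 := rfl
      rw [e1, e2, one_mul, one_mul, S_add, smul_add]
      simp [st]
    rw [this]
    exact Reach.refl _
  | true :: w, u, b, s => by
    obtain ⟨u', hu⟩ := run_word h N w u b (s + b)
    refine ⟨u', ?_⟩
    have hp := vec_pos w
    have hα : (0 : ℝ) < (vec w).1 := by exact_mod_cast hp.1
    have hβ : (0 : ℝ) < (vec w).2 := by exact_mod_cast hp.2
    have h1 := Reach.step (g := g (2 * u + 2 * b + s - 1))
      (p := ((vec w).2 : ℝ) / ((vec w).1 + (vec w).2)) (by positivity)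
      (by rw [div_le_one (by positivity)]; linarith)
      (st E (((vec w).1 : ℝ) + (vec w).2) (vec w).2 N u b s)
    rw [st_true h hα hβ] at h1
    have h2 := h1.trans hu
    rw [vec_true]
    simp only [List.length_cons]
    have e : (vec w).1 * b + (vec w).2 * (s + b) = ((vec w).1 + (vec w).2) * b + (vec w).2 * s := by
      ring
    rw [e] at h2
    rw [add_comm] at h2
    push_cast
    exact h2
  | false :: w, u, b, s => by
    obtain ⟨u', hu⟩ := run_word h N w (u - s) (s + b) s
    refine ⟨u', ?_⟩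
    have hp := vec_pos w
    have hα : (0 : ℝ) < (vec w).1 := by exact_mod_cast hp.1
    have hβ : (0 : ℝ) < (vec w).2 := by exact_mod_cast hp.2
    have h1 := Reach.step (g := g (2 * u + b - 1))
      (p := ((vec w).1 : ℝ) / ((vec w).1 + (vec w).2)) (by positivity)
      (by rw [div_le_one (by positivity)]; linarith)
      (st E ((vec w).1 : ℝ) ((vec w).1 + (vec w).2) N u b s)
    rw [st_false h hα hβ] at h1
    have h2 := h1.trans hu
    rw [vec_false]
    simp only [List.length_cons]
    have e : (vec w).1 * (s + b) + (vec w).2 * s = (vec w).1 * b + ((vec w).1 + (vec w).2) * s := by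
      ring
    rw [e] at h2
    rw [add_comm] at h2
    push_cast
    exact h2

/-- average over the powers of `w`, an element with `w ^ q = 1` -/
noncomputable def av (w : G) (q : ℕ) (f : G → ℝ) : G → ℝ :=
  (1 / (q : ℝ)) • ∑ j ∈ range q, L (w ^ j) f

/-- periodicity of block sums -/
theorem S_period {E : ℤ → G → ℝ} {q : ℕ} (hq : ∀ x, E (x + q) = E x) (u : ℤ) :
    S E u q = S E 0 q := by
  have key : ∀ n : ℤ, S E (n + 1) q = S E n q := by
    intro n
    have h1 : S E n (q + 1) = S E n q + E (n + q) := by rw [S_add, S_one]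
    have h2 : S E n (1 + q) = E n + S E (n + 1) q := by
      rw [S_add, S_one]; norm_num
    rw [add_comm 1 q, h1, hq] at h2
    have := h2
    have h3 : E n + S E (n + 1) q = E n + S E n q := by rw [← h2]; abel
    exact add_left_cancel h3
  induction u using Int.induction_on with
  | zero => rfl
  | succ i ih => rw [key, ih]
  | pred i ih => rw [← key]; rw [sub_add_cancel]; exact ih

theorem S_mul {E : ℤ → G → ℝ} {q : ℕ} (hq : ∀ x, E (x + q) = E x) (u : ℤ) (m : ℕ) :
    S E u (q * m) = (m : ℝ) • S E 0 q := by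
  induction m with
  | zero => simp [S_zero]
  | succ m ih =>
    rw [Nat.mul_succ, S_add, ih, S_period hq (u + ((q * m : ℕ) : ℤ)), Nat.cast_succ, add_smul,
      one_smul]

/-- The averaging step. -/
theorem reach_av {q : ℕ} [Fact q.Prime] {w t : G} (hw : w ^ q = 1) (ht : t * w * t⁻¹ = w⁻¹)
    {f : G → ℝ} (hf : L t f = f) : Reach (cost q) f (av w q f) := by
  have hq0 : 0 < q := (Fact.out : q.Prime).pos
  set E : ℤ → G → ℝ := fun x => L (w ^ x) f with hE
  have htx : ∀ x : ℤ, t * w ^ x = w ^ (-x) * t := by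
    intro x
    have : (t * w * t⁻¹) ^ x = t * w ^ x * t⁻¹ := by
      rw [conj_zpow]
    rw [ht] at this
    rw [zpow_neg, ← inv_zpow, this]
    group
  have hg : ∀ c x : ℤ, L (w ^ c * t) (E x) = E (c - x) := by
    intro c x
    simp only [hE]
    rw [← L_mul, mul_assoc, htx, ← mul_assoc, ← zpow_add, L_mul, hf, sub_eq_add_neg]
  have hper : ∀ x, E (x + q) = E x := by
    intro x
    simp only [hE]
    rw [zpow_add, zpow_natCast, hw, mul_one]
  obtain ⟨v, hv, m, hm⟩ := exists_word_cost q
  obtain ⟨u', hu⟩ := run_word hg ((vec v).1 : ℝ) v 0 1 0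
  have hpos := vec_pos v
  have hN : ((vec v).1 : ℝ) ≠ 0 := by exact_mod_cast hpos.1.ne'
  have e1 : st E (vec v).1 (vec v).2 ((vec v).1 : ℝ) 0 1 0 = f := by
    unfold st
    rw [S_one, S_zero, div_self hN, one_smul, smul_zero, add_zero]
    simp only [hE]
    rw [zpow_zero, L_one]
  rw [e1, mul_one, mul_zero, add_zero] at hu
  have e2 : (1 / ((vec v).1 : ℝ)) • S E u' (vec v).1 = av w q f := by
    rw [hm, S_mul hper, smul_smul]
    have hm0 : (m : ℝ) ≠ 0 := by
      intro h0
      have : m = 0 := by exact_mod_cast h0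
      rw [this, mul_zero] at hm
      exact hpos.1.ne' hm
    have hq0' : (q : ℝ) ≠ 0 := by exact_mod_cast hq0.ne'
    have c : 1 / ((q * m : ℕ) : ℝ) * m = 1 / q := by
      push_cast; field_simp
    rw [c]
    unfold av S
    congr 1
    apply Finset.sum_congr rfl
    intro j _
    simp only [hE]
    rw [zero_add, zpow_natCast]
  rw [e2] at hu
  exact hu.mono hv

end Pool.Agent.Helper75.MX
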