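import Pool.Agent.Helper75.MX.Stage2

/-!
Combining mixing of subgroups and quotients.
-/

set_option autoImplicit false
set_option linter.unusedSectionVars false

namespace Pool.Agent.Helper75.MX

open Finset
open scoped Classical in
/-- the point mass at the identity -/
noncomputable def dlt (G : Type) [Group G] : G → ℝ := fun x => if x = 1 then 1 else 0

/-- the uniform distribution -/
noncomputable def uni (G : Type) : G → ℝ := fun _ => 1 / (Nat.card G : ℝ)

/-- mixing by at most `k` lazy steps -/
def Mix (G : Type) [Group G] (k : ℕ) : Prop := Reach k (dlt G) (uni G)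

variable {G : Type} [Group G]

/-- pull back of a function along a homomorphism intertwines lazy steps -/
theorem app_comp {H : Type} [Group H] (π : G →* H) (l : List (G × ℝ)) (φ : H → ℝ) :
    app l (φ ∘ π) = (app (l.map (fun a => (π a.1, a.2))) φ) ∘ π := by
  induction l with
  | nil => rfl
  | cons a l ih =>
    rw [app_cons, ih, List.map_cons, app_cons]
    funext x
    simp [lz, L, Function.comp]

/-- sum over the cosets of a normal subgroup -/
noncomputable def T (M : Subgroup G) [Fintype M] (φ : G → ℝ) : G → ℝ := fun x => ∑ m : M, φ (m * x)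

theorem T_lz (M : Subgroup G) [Fintype M] (hn : M.Normal) (g : G) (p : ℝ) (φ : G → ℝ) :
    T M (lz g p φ) = lz g p (T M φ) := by
  funext x
  simp only [T, lz, L, Pi.add_apply, Pi.smul_apply, smul_eq_mul]
  rw [Finset.sum_add_distrib, ← Finset.mul_sum, ← Finset.mul_sum]
  congr 2
  have e : ∀ m : M, g⁻¹ * ((m : G) * x) = ((MulAut.conjNormal g⁻¹ m : M) : G) * (g⁻¹ * x) := by
    intro m
    rw [MulAut.conjNormal_apply]
    group
  simp only [e]
  exact Equiv.sum_comp (MulAut.conjNormal g⁻¹ : MulAut M).toEquiv
    (fun m : M => φ ((m : G) * (g⁻¹ * x)))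

theorem T_app (M : Subgroup G) [Fintype M] (hn : M.Normal) (l : List (G × ℝ)) (φ : G → ℝ) :
    T M (app l φ) = app l (T M φ) := by
  induction l with
  | nil => rfl
  | cons a l ih => rw [app_cons, T_lz M hn, ih, app_cons]

/-- lift of a list along a quotient map -/
noncomputable def lift (M : Subgroup G) [M.Normal] (l : List ((G ⧸ M) × ℝ)) : List (G × ℝ) :=
  l.map (fun a => (a.1.out, a.2))

theorem lift_ok (M : Subgroup G) [M.Normal] {l : List ((G ⧸ M) × ℝ)} (h : Ok l) :
    Ok (lift M l) := by
  intro a ha
  unfold lift at ha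
  rw [List.mem_map] at ha
  obtain ⟨b, hb, rfl⟩ := ha
  exact h b hb

theorem app_lift (M : Subgroup G) [M.Normal] (l : List ((G ⧸ M) × ℝ)) (φ : G ⧸ M → ℝ) :
    app (lift M l) (φ ∘ QuotientGroup.mk' M) = app l φ ∘ QuotientGroup.mk' M := by
  rw [app_comp]
  congr 2
  unfold lift
  rw [List.map_map]
  conv_rhs => rw [← List.map_id l]
  apply List.map_congr_left
  intro a _
  simp

variable [Finite G]

theorem card_quot (M : Subgroup G) : Nat.card G = Nat.card (G ⧸ M) * Nat.card M :=
  Subgroup.card_eq_card_quotient_mul_card_subgroup M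

/-- combination with a stage: quotient first, then make the result invariant -/
theorem mix_stage (M : Subgroup G) [hn : M.Normal] {k : ℕ} (hk : Mix (G ⧸ M) k) :
    ∃ F : G → ℝ, Reach k (dlt G) F ∧
      ∀ (m : ℕ) (F' : G → ℝ), Reach m F F' → M ≤ stab F' → Mix G (k + m) := by
  classical
  have : Fintype M := Fintype.ofFinite M
  obtain ⟨l, hl, ho, he⟩ := hk
  refine ⟨app (lift M l) (dlt G), ⟨lift M l, ?_, lift_ok M ho, rfl⟩, ?_⟩
  · unfold lift; rw [List.length_map]; exact hl
  have hT0 : T M (dlt G) = dlt (G ⧸ M) ∘ QuotientGroup.mk' M := by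
    funext x
    simp only [T, dlt, Function.comp]
    rw [QuotientGroup.mk'_apply]
    by_cases hx : x ∈ M
    · rw [if_pos ((QuotientGroup.eq_one_iff x).2 hx)]
      rw [Finset.sum_eq_single ⟨x⁻¹, M.inv_mem hx⟩]
      · simp
      · intro m _ hm
        rw [if_neg]
        intro h
        apply hm
        ext
        exact eq_inv_of_mul_eq_one_left h
      · intro h; exact absurd (Finset.mem_univ _) h
    · rw [if_neg (fun h => hx ((QuotientGroup.eq_one_iff x).1 h))]
      apply Finset.sum_eq_zero
      intro m _
      rw [if_neg]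
      intro h
      apply hx
      have : x = (m : G)⁻¹ := eq_inv_of_mul_eq_one_right h
      rw [this]
      exact M.inv_mem m.2
  have hTF : T M (app (lift M l) (dlt G)) = uni (G ⧸ M) ∘ QuotientGroup.mk' M := by
    rw [T_app M hn, hT0, app_lift, he]
  intro m F' hr hs
  obtain ⟨l', hl', ho', he'⟩ := hr
  have hTF' : T M F' = uni (G ⧸ M) ∘ QuotientGroup.mk' M := by
    rw [← he', T_app M hn, hTF, app_comp]
    congr 1
    have hconst : ∀ (l : List ((G ⧸ M) × ℝ)), app l (uni (G ⧸ M)) = uni (G ⧸ M) := by
      intro l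
      induction l with
      | nil => rfl
      | cons a l ih =>
        rw [app_cons, ih]
        funext x
        simp only [lz, L, uni, Pi.add_apply, Pi.smul_apply, smul_eq_mul]
        ring
    exact hconst _
  have hF' : F' = uni G := by
    funext x
    have h1 : T M F' x = (Nat.card M : ℝ) * F' x := by
      simp only [T]
      have : ∀ m : M, F' ((m : G) * x) = F' x := by
        intro m
        have h2 : L ((m : G)⁻¹) F' = F' := hs (M.inv_mem m.2)
        have := congrFun h2 x
        simp only [L, inv_inv] at this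
        exact this
      simp only [this]
      rw [Finset.sum_const, Finset.card_univ, ← Nat.card_eq_fintype_card, nsmul_eq_mul]
    rw [hTF'] at h1
    simp only [uni, Function.comp] at h1 ⊢
    have hc := card_quot M
    have hM0 : (Nat.card M : ℝ) ≠ 0 := by exact_mod_cast Nat.card_pos.ne'
    have hQ0 : (Nat.card (G ⧸ M) : ℝ) ≠ 0 := by exact_mod_cast Nat.card_pos.ne'
    rw [hc]
    push_cast
    field_simp
    field_simp at h1
    linarith
  have h3 : Reach (k + m) (dlt G) F' := by
    refine Reach.trans ⟨lift M l, ?_, lift_ok M ho, rfl⟩ ⟨l', hl', ho', he'⟩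
    unfold lift; rw [List.length_map]; exact hl
  rw [hF'] at h3
  exact h3

open scoped Classical in
/-- extension of a function on a subgroup by zero -/
noncomputable def ext0 (K : Subgroup G) (φ : K → ℝ) : G → ℝ :=
  fun x => if h : x ∈ K then φ ⟨x, h⟩ else 0

theorem ext0_lz (K : Subgroup G) (g : K) (p : ℝ) (φ : K → ℝ) :
    ext0 K (lz g p φ) = lz (g : G) p (ext0 K φ) := by
  funext x
  simp only [ext0, lz, L, Pi.add_apply, Pi.smul_apply, smul_eq_mul]
  have hiff : (g : G)⁻¹ * x ∈ K ↔ x ∈ K := by
    constructor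
    · intro h
      have := K.mul_mem g.2 h
      rwa [mul_inv_cancel_left] at this
    · intro h; exact K.mul_mem (K.inv_mem g.2) h
  by_cases hx : x ∈ K
  · rw [dif_pos hx, dif_pos hx, dif_pos (hiff.2 hx)]
    rfl
  · rw [dif_neg hx, dif_neg hx, dif_neg (fun h => hx (hiff.1 h))]
    ring

theorem ext0_app (K : Subgroup G) (l : List (K × ℝ)) (φ : K → ℝ) :
    ext0 K (app l φ) = app (l.map (fun a => ((a.1 : G), a.2))) (ext0 K φ) := by
  induction l with
  | nil => rfl
  | cons a l ih => rw [app_cons, ext0_lz, ih, List.map_cons, app_cons]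

/-- subadditivity for extensions -/
theorem mix_ext (K : Subgroup G) [K.Normal] {k m : ℕ} (hk : Mix K k) (hm : Mix (G ⧸ K) m) :
    Mix G (k + m) := by
  classical
  obtain ⟨l, hl, ho, he⟩ := hk
  obtain ⟨l', hl', ho', he'⟩ := hm
  have h1 : app (l.map (fun a => ((a.1 : G), a.2))) (dlt G)
      = (1 / (Nat.card K : ℝ)) • (dlt (G ⧸ K) ∘ QuotientGroup.mk' K) := by
    have e0 : dlt G = ext0 K (dlt K) := by
      funext x
      simp only [ext0, dlt]
      by_cases hx : x ∈ K
      · rw [dif_pos hx]
        by_cases h1 : x = 1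
        · subst h1
          rw [if_pos rfl, if_pos]
          rfl
        · rw [if_neg h1, if_neg]
          intro h
          exact h1 (congrArg Subtype.val h)
      · rw [dif_neg hx, if_neg]
        intro h
        rw [h] at hx
        exact hx K.one_mem
    rw [e0, ← ext0_app, he]
    funext x
    simp only [ext0, uni, Pi.smul_apply, Function.comp, dlt, smul_eq_mul]
    rw [QuotientGroup.mk'_apply]
    by_cases hx : x ∈ K
    · rw [dif_pos hx, if_pos ((QuotientGroup.eq_one_iff x).2 hx), mul_one]
    · rw [dif_neg hx, if_neg (fun h => hx ((QuotientGroup.eq_one_iff x).1 h)), mul_zero]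
  refine Reach.trans (h := app (l.map (fun a => ((a.1 : G), a.2))) (dlt G))
    ⟨l.map (fun a => ((a.1 : G), a.2)), by rw [List.length_map]; exact hl, ?_, rfl⟩
    ⟨lift K l', by unfold lift; rw [List.length_map]; exact hl', lift_ok K ho', ?_⟩
  · intro a ha
    rw [List.mem_map] at ha
    obtain ⟨b, hb, rfl⟩ := ha
    exact ho b hb
  · rw [h1, app_smul, app_lift, he']
    funext x
    simp only [uni, Pi.smul_apply, Function.comp, smul_eq_mul]
    rw [card_quot K]
    push_cast
    rw [one_div_mul_one_div, mul_comm]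

end Pool.Agent.Helper75.MX
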