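import Mathlib

/-!
Random subproducts, mixability and mixing length (definitions for MP_a2f62e_al).
-/

set_option autoImplicit false

namespace Pool.Agent.Helper75.MX

open scoped Classical in
/-- the probability that the random subproduct `g 0 ^ ε 0 * ... * g (k-1) ^ ε (k-1)` equals `x`,
where the `ε i` are independent and `ε i = 1` with probability `p i` -/
noncomputable def subprodProb {G : Type} [Group G] {k : ℕ} (g : Fin k → G) (p : Fin k → ℝ)
    (x : G) : ℝ :=
  ∑ ε : Fin k → Bool, if (List.ofFn fun i => if ε i then g i else 1).prod = x
    then ∏ i, (if ε i then p i else 1 - p i) else 0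

/-- some random subproduct of length `k` is exactly uniform on `G` -/
def IsMixing (G : Type) [Group G] (k : ℕ) : Prop :=
  ∃ (g : Fin k → G) (p : Fin k → ℝ), (∀ i, 0 ≤ p i ∧ p i ≤ 1) ∧
    ∀ x, subprodProb g p x = 1 / (Nat.card G : ℝ)

/-- mixable groups -/
def Mixable (G : Type) [Group G] : Prop := ∃ k, IsMixing G k

/-- the mixing length: the least `k` such that some random subproduct of length `k` is uniform -/
noncomputable def mixlen (G : Type) [Group G] : ℕ := sInf {k | IsMixing G k}

end Pool.Agent.Helper75.MX
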