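import Pool.Agent.Helper75.MX.Main
import Pool.Agent.Helper75.MX.Defs

/-!
Random subproducts, mixability and mixing length.
-/

set_option autoImplicit false
set_option linter.unusedSectionVars false

namespace Pool.Agent.Helper75.MX

variable {G : Type} [Group G]

theorem app_eq_subprod : ∀ (k : ℕ) (g : Fin k → G) (p : Fin k → ℝ) (x : G),
    app (List.ofFn fun i => (g i, p i)) (dlt G) x = subprodProb g p x
  | 0, g, p, x => by
    by_cases hx : x = 1
    · subst hx; simp [app, dlt, subprodProb]
    · have hx' : ¬ (1 : G) = x := fun h => hx h.symm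
      simp [app, dlt, subprodProb, hx, hx']
  | k + 1, g, p, x => by
    classical
    rw [List.ofFn_succ, app_cons]
    simp only [lz, L, Pi.add_apply, Pi.smul_apply, smul_eq_mul]
    rw [app_eq_subprod k, app_eq_subprod k]
    unfold subprodProb
    rw [← (Fin.consEquiv (fun _ : Fin (k + 1) => Bool)).sum_comp, Fintype.sum_prod_type,
      Fintype.sum_bool]
    rw [add_comm]
    congr 1
    · rw [Finset.mul_sum]
      apply Finset.sum_congr rfl
      intro ε _
      simp only [Fin.consEquiv_apply, List.ofFn_succ, List.prod_cons, Fin.cons_zero, Fin.cons_succ,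
        Fin.prod_univ_succ, if_true]
      by_cases h : (List.ofFn fun i => if ε i = true then g i.succ else 1).prod = (g 0)⁻¹ * x
      · rw [if_pos h, if_pos (by rw [h]; group)]
      · rw [if_neg h, if_neg (by
          intro h'
          apply h
          rw [← h']; group), mul_zero]
    · rw [Finset.mul_sum]
      apply Finset.sum_congr rfl
      intro ε _
      simp only [Fin.consEquiv_apply, List.ofFn_succ, List.prod_cons, Fin.cons_zero, Fin.cons_succ,
        Fin.prod_univ_succ]
      by_cases h : (List.ofFn fun i => if ε i = true then g i.succ else 1).prod = x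
      · rw [if_pos h, if_pos (by simpa using h)]
        simp
      · rw [if_neg h, if_neg (by simpa using h), mul_zero]

theorem isMixing_iff {k : ℕ} : IsMixing G k ↔ ∃ l : List (G × ℝ), l.length = k ∧ Ok l ∧
    app l (dlt G) = uni G := by
  constructor
  · rintro ⟨g, p, hp, hx⟩
    refine ⟨List.ofFn fun i => (g i, p i), by simp, ?_, ?_⟩
    · intro a ha
      rw [List.mem_ofFn] at ha
      obtain ⟨i, rfl⟩ := ha
      exact hp i
    · funext x
      rw [app_eq_subprod, hx]
      rfl
  · rintro ⟨l, rfl, ho, he⟩
    refine ⟨fun i => (l.get i).1, fun i => (l.get i).2, fun i => ho _ (l.get_mem i), ?_⟩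
    intro x
    rw [← app_eq_subprod]
    have : (List.ofFn fun i => ((l.get i).1, (l.get i).2)) = l := by
      simp
    rw [this, he]
    rfl

theorem exists_isMixing {k : ℕ} (h : Mix G k) : ∃ m ≤ k, IsMixing G m := by
  obtain ⟨l, hl, ho, he⟩ := h
  exact ⟨l.length, hl, isMixing_iff.2 ⟨l, rfl, ho, he⟩⟩

theorem lz_inj [Finite G] (hodd : Odd (Nat.card G)) {g : G} {p : ℝ} (h0 : 0 ≤ p) (h1 : p ≤ 1)
    {f h : G → ℝ} (he : lz g p f = lz g p h) : f = h := by
  set d : G → ℝ := f - h with hd
  have hLd : L g (f - h) = L g f - L g h := rfl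
  have h2 : (1 - p) • d + p • L g d = 0 := by
    have : lz g p f - lz g p h = 0 := sub_eq_zero.2 he
    rw [← this]
    simp only [lz, hd, hLd, smul_sub]
    abel
  by_cases hp : p = 0
  · rw [hp] at h2
    simp only [sub_zero, one_smul, zero_smul, add_zero] at h2
    exact sub_eq_zero.1 h2
  have hp' : 0 < p := lt_of_le_of_ne h0 (Ne.symm hp)
  set c : ℝ := (1 - p) / p with hc
  have hc0 : 0 ≤ c := div_nonneg (by linarith) h0
  have h3 : L g d = (-c) • d := by
    have : p • L g d = p • ((-c) • d) := by
      rw [smul_smul, hc]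
      have e : p * -((1 - p) / p) = -(1 - p) := by field_simp
      rw [e, neg_smul]
      exact eq_neg_of_add_eq_zero_right h2
    exact smul_right_injective _ hp this
  have h4 : ∀ j : ℕ, L (g ^ j) d = ((-c) ^ j) • d := by
    intro j
    induction j with
    | zero => rw [pow_zero, pow_zero, L_one, one_smul]
    | succ j ih => rw [pow_succ, L_mul, h3, L_smul, ih, smul_smul, pow_succ, mul_comm]
  have hoo : Odd (orderOf g) := hodd.of_dvd_nat (orderOf_dvd_natCard g)
  have h5 := h4 (orderOf g)
  rw [pow_orderOf_eq_one, L_one, hoo.neg_pow] at h5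
  have h6 : (1 + c ^ orderOf g) • d = 0 := by
    rw [add_smul, one_smul]
    nth_rewrite 1 [h5]
    rw [neg_smul]
    abel
  have h7 : (0 : ℝ) < 1 + c ^ orderOf g := by positivity
  have h8 : d = 0 := (smul_eq_zero.1 h6).resolve_left h7.ne'
  exact sub_eq_zero.1 h8

theorem app_inj [Finite G] (hodd : Odd (Nat.card G)) {l : List (G × ℝ)} (ho : Ok l)
    {f h : G → ℝ} (he : app l f = app l h) : f = h := by
  induction l with
  | nil => exact he
  | cons a l ih =>
    rw [app_cons, app_cons] at he
    exact ih (fun b hb => ho b (List.mem_cons_of_mem _ hb))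
      (lz_inj hodd (ho a List.mem_cons_self).1 (ho a List.mem_cons_self).2 he)

theorem app_right (l : List (G × ℝ)) (f : G → ℝ) (v : G) :
    app l (fun x => f (x * v)) = fun x => app l f (x * v) := by
  induction l with
  | nil => rfl
  | cons a l ih =>
    rw [app_cons, ih, app_cons]
    funext x
    simp [lz, L, mul_assoc]

/-- a mixable group has no nontrivial quotient of odd order -/
theorem ts_of_mixable [Finite G] (h : Mixable G) : TS G := by
  classical
  obtain ⟨k, hk⟩ := h
  obtain ⟨l, -, ho, he⟩ := isMixing_iff.1 hk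
  intro N hN hodd
  have : Fintype N := Fintype.ofFinite N
  set π := QuotientGroup.mk' N with hπ
  set l' := l.map (fun a => (π a.1, a.2)) with hl'
  have hT0 : T N (dlt G) = dlt (G ⧸ N) ∘ π := by
    funext x
    simp only [T, dlt, Function.comp]
    rw [hπ, QuotientGroup.mk'_apply]
    by_cases hx : x ∈ N
    · rw [if_pos ((QuotientGroup.eq_one_iff x).2 hx)]
      rw [Finset.sum_eq_single ⟨x⁻¹, N.inv_mem hx⟩]
      · simp
      · intro m _ hm
        rw [if_neg]
        intro h
        apply hm
        ext
        exact eq_inv_of_mul_eq_one_left h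
      · intro h; exact absurd (Finset.mem_univ _) h
    · rw [if_neg (fun h => hx ((QuotientGroup.eq_one_iff x).1 h))]
      apply Finset.sum_eq_zero
      intro m _
      rw [if_neg]
      intro h
      apply hx
      have : x = (m : G)⁻¹ := eq_inv_of_mul_eq_one_right h
      rw [this]
      exact N.inv_mem m.2
  have h1 : T N (app l (dlt G)) = app l' (dlt (G ⧸ N)) ∘ π := by
    rw [T_app N hN, hT0, app_comp]
  have h2 : ∀ y : G ⧸ N, app l' (dlt (G ⧸ N)) y = (Nat.card N : ℝ) / Nat.card G := by
    intro y
    obtain ⟨x, rfl⟩ := QuotientGroup.mk'_surjective N y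
    have := congrFun h1 x
    rw [he] at this
    simp only [T, uni, Function.comp] at this
    rw [Finset.sum_const, Finset.card_univ, ← Nat.card_eq_fintype_card, nsmul_eq_mul] at this
    rw [← hπ, ← this]
    ring
  have hodd' : Odd (Nat.card (G ⧸ N)) := hodd
  have hok : Ok l' := by
    intro a ha
    rw [hl', List.mem_map] at ha
    obtain ⟨b, hb, rfl⟩ := ha
    exact ho b hb
  have h3 : ∀ v : G ⧸ N, v = 1 := by
    intro v
    have h4 : (fun x => dlt (G ⧸ N) (x * v)) = dlt (G ⧸ N) := by
      apply app_inj hodd' hok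
      rw [app_right]
      funext x
      rw [h2, h2]
    have h5 := congrFun h4 1
    simp only [dlt, one_mul, if_true] at h5
    by_contra hv
    rw [if_neg hv] at h5
    norm_num at h5
  have h6 : N.index = 1 := by
    change Nat.card (G ⧸ N) = 1
    rw [Nat.card_eq_one_iff_unique]
    exact ⟨⟨fun a b => by rw [h3 a, h3 b]⟩, ⟨1⟩⟩
  exact Subgroup.index_eq_one.1 h6

/-- **Main result.** -/
theorem solvable_bound (G : Type) [Group G] [Finite G] (hsol : Group.IsSolvable G) :
    (Mixable G ↔ ∀ N : Subgroup G, N.Normal → Odd N.index → N = ⊤) ∧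
      (Mixable G → ∀ a m : ℕ, Nat.card G = 2 ^ a * m → Odd m →
        (mixlen G : ℝ) ≤ a + 6 * Real.logb 2 m ∧
          (a : ℝ) + 6 * Real.logb 2 m ≤ 6 * Real.logb 2 (Nat.card G)) := by
  refine ⟨⟨ts_of_mixable, ?_⟩, ?_⟩
  · intro hTS
    obtain ⟨k, hk, _⟩ := main _ G rfl hsol hTS
    obtain ⟨m, _, hm⟩ := exists_isMixing hk
    exact ⟨m, hm⟩
  · intro hmix a m hcard hm
    obtain ⟨k, hk, hb⟩ := main _ G rfl hsol (ts_of_mixable hmix)
    obtain ⟨j, hj, hjm⟩ := exists_isMixing hk
    have hle : mixlen G ≤ k := (Nat.sInf_le hjm).trans hj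
    have hm0 : 0 < m := hm.pos
    have hm0' : (0 : ℝ) < m := by exact_mod_cast hm0
    rw [hcard, wt_two_pow a hm] at hb
    constructor
    · have h1 : ((2 : ℝ) ^ k) ≤ 2 ^ a * (m : ℝ) ^ 6 := by exact_mod_cast hb
      have h2 : Real.logb 2 ((2 : ℝ) ^ k) ≤ Real.logb 2 (2 ^ a * (m : ℝ) ^ 6) :=
        Real.logb_le_logb_of_le (by norm_num) (by positivity) h1
      rw [Real.logb_mul (by positivity) (by positivity), Real.logb_pow, Real.logb_pow,
        Real.logb_pow, Real.logb_self_eq_one (by norm_num), mul_one, mul_one] at h2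
      have h3 : (mixlen G : ℝ) ≤ k := by exact_mod_cast hle
      push_cast at h2
      linarith
    · rw [hcard]
      push_cast
      rw [Real.logb_mul (by positivity) (by positivity), Real.logb_pow,
        Real.logb_self_eq_one (by norm_num), mul_one]
      have : (0 : ℝ) ≤ a := Nat.cast_nonneg a
      linarith

end Pool.Agent.Helper75.MX
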