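import Pool.Agent.Helper75.MX.Comb

/-!
Solvable groups without nontrivial quotients of odd order.
-/

set_option autoImplicit false
set_option linter.unusedSectionVars false

namespace Pool.Agent.Helper75.MX

open scoped commutatorElement

/-- no nontrivial quotient of odd order -/
def TS (G : Type) [Group G] : Prop := ∀ N : Subgroup G, N.Normal → Odd N.index → N = ⊤

/-- the weight `n * m ^ 5`, where `m` is the largest odd divisor of `n` -/
def wt (n : ℕ) : ℕ := n * (ordCompl[2] n) ^ 5

theorem wt_mul (a b : ℕ) : wt (a * b) = wt a * wt b := by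
  unfold wt
  rw [Nat.ordCompl_mul, mul_pow]
  ring

theorem wt_odd {n : ℕ} (h : Odd n) : wt n = n ^ 6 := by
  unfold wt
  have h1 : ordCompl[2] n = n :=
    (Nat.ordCompl_eq_self_iff_zero_or_not_dvd n Nat.prime_two).2 (Or.inr (by
      intro h2
      exact (Nat.not_even_iff_odd.2 h) (even_iff_two_dvd.2 h2)))
  rw [h1]
  ring

theorem wt_two_pow (a : ℕ) {m : ℕ} (hm : Odd m) : wt (2 ^ a * m) = 2 ^ a * m ^ 6 := by
  rw [wt_mul, wt_odd hm]
  congr 1
  unfold wt
  have : ordCompl[2] (2 ^ a) = 1 := by
    rw [Nat.Prime.factorization_pow Nat.prime_two]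
    simp
  rw [this, one_pow, mul_one]

section lemmas

variable {G : Type} [Group G] [Finite G]

theorem odd_trivial {x : G} (hodd : Odd (Nat.card G)) {j : ℕ} (hx : x ^ (2 ^ j) = 1) : x = 1 := by
  have h1 : orderOf x ∣ 2 ^ j := orderOf_dvd_of_pow_eq_one hx
  have h2 : orderOf x ∣ Nat.card G := orderOf_dvd_natCard x
  have hc : Nat.Coprime (Nat.card G) (2 ^ j) := by
    apply Nat.Coprime.pow_right
    exact (Nat.coprime_two_right).2 hodd
  have : orderOf x ∣ 1 := by
    rw [← hc]
    exact Nat.dvd_gcd h2 h1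
  exact orderOf_eq_one_iff.1 (Nat.dvd_one.1 this)

theorem odd_sq {K : Subgroup G} (hodd : Odd (Nat.card K)) {x : G} (hxK : x ∈ K)
    (hx : x * x = 1) : x = 1 := by
  have h1 : (⟨x, hxK⟩ : K) ^ (2 ^ 1) = 1 := by
    rw [pow_one, pow_two]
    exact Subtype.ext hx
  have := odd_trivial hodd h1
  exact congrArg Subtype.val this

/-- quotients inherit the property -/
theorem TS.quot (h : TS G) (M : Subgroup G) [M.Normal] : TS (G ⧸ M) := by
  intro N hN hodd
  have h1 : (N.comap (QuotientGroup.mk' M)).index = N.index :=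
    Subgroup.index_comap_of_surjective N (QuotientGroup.mk'_surjective M)
  have h2 : N.comap (QuotientGroup.mk' M) = ⊤ := h _ (hN.comap _) (by rw [h1]; exact hodd)
  have h3 : N.index = 1 := by rw [← h1, h2, Subgroup.index_top]
  exact Subgroup.index_eq_one.1 h3

/-- in a group all of whose proper normal subgroups have no large 2-generated part, proper normal
subgroups have odd order -/
theorem odd_of_proper (hH : ∀ K : Subgroup G, K.Normal → TS K → K = ⊥ ∨ K = ⊤)
    {K : Subgroup G} (hK : K.Normal) (hne : K ≠ ⊤) : Odd (Nat.card K) := by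
  by_contra hev
  rw [Nat.not_odd_iff_even] at hev
  set s : Set G := {x | x ∈ K ∧ ∃ j : ℕ, x ^ (2 ^ j) = 1} with hs
  set O := Subgroup.normalClosure s with hO
  have hOK : O ≤ K := Subgroup.normalClosure_le_normal (fun x hx => hx.1)
  have hconj : ∀ y ∈ Group.conjugatesOfSet s, y ∈ s := by
    intro y hy
    rw [Group.mem_conjugatesOfSet_iff] at hy
    obtain ⟨x, hx, hc⟩ := hy
    obtain ⟨g, rfl⟩ := isConj_iff.1 hc
    refine ⟨hK.conj_mem x hx.1 g, ?_⟩
    obtain ⟨j, hj⟩ := hx.2
    refine ⟨j, ?_⟩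
    rw [conj_pow, hj]
    group
  have hTS : TS O := by
    intro N hN hodd
    have hle : O ≤ N.map O.subtype := by
      have hcl : Subgroup.closure (Group.conjugatesOfSet s) ≤ N.map O.subtype ↔ _ :=
        Subgroup.closure_le _
      refine hcl.2 ?_
      intro y hy
      have hyO : y ∈ O := Subgroup.subset_closure hy
      obtain ⟨_, j, hj⟩ := hconj y hy
      refine ⟨⟨y, hyO⟩, ?_, rfl⟩
      have h1 : (QuotientGroup.mk' N (⟨y, hyO⟩ : O)) ^ (2 ^ j) = 1 := by
        rw [← map_pow]
        have : (⟨y, hyO⟩ : O) ^ (2 ^ j) = 1 := Subtype.ext hj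
        rw [this, map_one]
      have h2 := odd_trivial (G := O ⧸ N) (by exact hodd) h1
      exact (QuotientGroup.eq_one_iff _).1 h2
    rw [eq_top_iff]
    intro x _
    obtain ⟨y, hy, hyx⟩ := hle x.2
    have : y = x := Subtype.ext hyx
    rw [← this]; exact hy
  rcases hH O inferInstance hTS with h | h
  · obtain ⟨x, hx⟩ := exists_prime_orderOf_dvd_card' (G := K) 2 hev.two_dvd
    have hxs : (x : G) ∈ s := by
      refine ⟨x.2, 1, ?_⟩
      have h1 : x ^ 2 = 1 := by rw [← hx]; exact pow_orderOf_eq_one x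
      rw [pow_one]
      exact congrArg Subtype.val h1
    have hxO : (x : G) ∈ O := Subgroup.subset_normalClosure hxs
    rw [h, Subgroup.mem_bot] at hxO
    have : x = 1 := Subtype.ext hxO
    rw [this, orderOf_one] at hx
    exact absurd hx (by norm_num)
  · exact hne (eq_top_iff.2 (h ▸ hOK))

/-- an involution in a group of even order -/
theorem exists_inv (hev : Even (Nat.card G)) : ∃ t : G, t * t = 1 ∧ t ≠ 1 := by
  obtain ⟨t, ht⟩ := exists_prime_orderOf_dvd_card' (G := G) 2 hev.two_dvd
  refine ⟨t, ?_, ?_⟩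
  · rw [← pow_two, ← ht]; exact pow_orderOf_eq_one t
  · intro h; rw [h, orderOf_one] at ht; exact absurd ht (by norm_num)

end lemmas

section core

variable {G : Type} [Group G] [Finite G]

/-- The structure of a minimal configuration. -/
theorem structure_A (hsol : Group.IsSolvable G)
    (hodd : ∀ K : Subgroup G, K.Normal → K ≠ ⊤ → Odd (Nat.card K))
    {t : G} (ht : t * t = 1) (ht1 : Subgroup.normalClosure {t} = ⊤)
    (hcen : Subgroup.center G ≠ ⊤) :
    ∃ A : Subgroup G, A.Normal ∧ Odd (Nat.card A) ∧ ⁅A, A⁆ ≤ Subgroup.center G ∧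
      ∃ a ∈ A, t * a * t⁻¹ = a⁻¹ ∧ a ∉ Subgroup.center G := by
  classical
  have hco : Odd (Nat.card (Subgroup.center G)) := hodd _ inferInstance hcen
  have hti : t⁻¹ = t := by rw [inv_eq_iff_mul_eq_one]; exact ht
  have hcc : ∀ z ∈ Subgroup.center G, ∀ x : G, x * z = z * x := fun z hz =>
    Subgroup.mem_center_iff.1 hz
  have hex : ∃ n, derivedSeries G n ≤ Subgroup.center G := by
    obtain ⟨n, hn⟩ := hsol.solvable
    exact ⟨n, by rw [hn]; exact bot_le⟩
  set n := Nat.find hex with hn
  have hn0 : n ≠ 0 := by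
    intro h0
    have := Nat.find_spec hex
    rw [← hn, h0, derivedSeries_zero] at this
    exact hcen (top_le_iff.1 this)
  obtain ⟨m, hm⟩ := Nat.exists_eq_succ_of_ne_zero hn0
  set A := derivedSeries G m with hA
  have hAn : A.Normal := by rw [hA]; infer_instance
  have hAc : ¬ A ≤ Subgroup.center G := Nat.find_min hex (by omega)
  have hAA : ⁅A, A⁆ ≤ Subgroup.center G := by
    have := Nat.find_spec hex
    rw [← hn, hm, derivedSeries_succ] at this
    exact this
  have hAtop : A ≠ ⊤ := by
    intro htop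
    have htc : t ∉ Subgroup.center G := by
      intro htc
      have : Subgroup.normalClosure {t} ≤ Subgroup.center G :=
        Subgroup.normalClosure_le_normal (by
          intro x hx
          rw [Set.mem_singleton_iff] at hx
          rw [hx]; exact htc)
      rw [ht1, top_le_iff] at this
      exact hcen this
    apply htc
    rw [Subgroup.mem_center_iff]
    intro g
    have hc : ⁅g, t⁆ ∈ Subgroup.center G := by
      apply hAA
      apply Subgroup.commutator_mem_commutator <;> rw [htop] <;> exact Subgroup.mem_top _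
    have hsq : ⁅g, t⁆ * ⁅g, t⁆ = 1 := by
      have h1 : (⁅g, t⁆ * t) * (⁅g, t⁆ * t) = 1 := by
        have : ⁅g, t⁆ * t = g * t * g⁻¹ := by rw [commutatorElement_def]; group
        rw [this]
        have : g * t * g⁻¹ * (g * t * g⁻¹) = g * (t * t) * g⁻¹ := by group
        rw [this, ht]; group
      have h2 : (⁅g, t⁆ * t) * (⁅g, t⁆ * t) = ⁅g, t⁆ * (t * ⁅g, t⁆) * t := by group
      rw [h2, hcc _ hc t] at h1
      have h3 : ⁅g, t⁆ * (⁅g, t⁆ * t) * t = ⁅g, t⁆ * ⁅g, t⁆ * (t * t) := by group
      rw [h3, ht, mul_one] at h1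
      exact h1
    have h4 := odd_sq hco hc hsq
    exact commutatorElement_eq_one_iff_mul_comm.1 h4
  have hAodd : Odd (Nat.card A) := hodd A hAn hAtop
  have hb : ∃ b ∈ A, t * b * t⁻¹ * b⁻¹ ∉ Subgroup.center G := by
    by_contra hcon
    push Not at hcon
    apply hAc
    have hcomm : ∀ b ∈ A, b * t = t * b := by
      intro b hbA
      have hz := hcon b hbA
      set z := t * b * t⁻¹ * b⁻¹ with hzdef
      have h1 : t * b * t⁻¹ = z * b := by rw [hzdef]; group
      have h2 : z * z = 1 := by
        have h3 : t * (t * b * t⁻¹) * t⁻¹ = b := by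
          have : t * (t * b * t⁻¹) * t⁻¹ = (t * t) * b * (t * t)⁻¹ := by group
          rw [this, ht]; group
        rw [h1] at h3
        have h4 : t * (z * b) * t⁻¹ = (t * z) * t⁻¹ * (t * b * t⁻¹) := by group
        rw [h4, hcc z hz t, h1] at h3
        have h5 : z * t * t⁻¹ * (z * b) = z * z * b := by group
        rw [h5] at h3
        exact mul_eq_right.1 h3
      have h6 := odd_sq hco hz h2
      rw [h6, one_mul] at h1
      exact (mul_inv_eq_iff_eq_mul.1 h1).symm
    have hcent : t ∈ Subgroup.centralizer (A : Set G) := by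
      rw [Subgroup.mem_centralizer_iff]
      intro b hb
      exact hcomm b hb
    have hle : Subgroup.normalClosure {t} ≤ Subgroup.centralizer (A : Set G) :=
      Subgroup.normalClosure_le_normal (by
        intro x hx
        rw [Set.mem_singleton_iff] at hx
        rw [hx]; exact hcent)
    rw [ht1] at hle
    intro b hbA
    rw [Subgroup.mem_center_iff]
    intro g
    have := (Subgroup.mem_centralizer_iff.1 (hle (Subgroup.mem_top g))) b hbA
    exact this.symm
  obtain ⟨b, hbA, hbc⟩ := hb
  refine ⟨A, hAn, hAodd, hAA, t * b * t⁻¹ * b⁻¹,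
    A.mul_mem (hAn.conj_mem b hbA t) (A.inv_mem hbA), ?_, hbc⟩
  have h1 : t * (t * b * t⁻¹ * b⁻¹) * t⁻¹ = (t * t) * b * t⁻¹ * b⁻¹ * t⁻¹ := by group
  rw [h1, ht, one_mul]
  have h2 : (t * b * t⁻¹ * b⁻¹)⁻¹ = b * t * b⁻¹ * t⁻¹ := by group
  rw [h2, hti]

/-- an element of prime order -/
theorem structure_q
    (hodd : ∀ K : Subgroup G, K.Normal → K ≠ ⊤ → Odd (Nat.card K))
    {t : G} (hcen : Subgroup.center G ≠ ⊤) {A : Subgroup G}
    (hAodd : Odd (Nat.card A)) {a : G} (haA : a ∈ A) (hta : t * a * t⁻¹ = a⁻¹)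
    (hac : a ∉ Subgroup.center G) :
    ∃ (q : ℕ) (c : G), q.Prime ∧ q ≠ 2 ∧ orderOf c = q ∧ c ∈ A ∧ t * c * t⁻¹ = c⁻¹ ∧
      c ∉ Subgroup.center G := by
  have hco : Odd (Nat.card (Subgroup.center G)) := hodd _ inferInstance hcen
  have ha1 : a ≠ 1 := by
    intro h; rw [h] at hac; exact hac (Subgroup.one_mem _)
  have hr1 : orderOf a ≠ 1 := fun h => ha1 (orderOf_eq_one_iff.1 h)
  have hr0 : orderOf a ≠ 0 := (orderOf_pos a).ne'
  set q := (orderOf a).minFac with hq
  have hqp : q.Prime := Nat.minFac_prime hr1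
  have hqd : q ∣ orderOf a := Nat.minFac_dvd _
  set c := a ^ (orderOf a / q) with hc
  have hordc : orderOf c = q := orderOf_pow_orderOf_div hr0 hqd
  have hcA : c ∈ A := A.pow_mem haA _
  have htc : t * c * t⁻¹ = c⁻¹ := by
    rw [hc, ← conj_pow, hta, inv_pow]
  have hq2 : q ≠ 2 := by
    intro h2
    have h3 : orderOf a ∣ Nat.card A := by
      have := orderOf_dvd_natCard (⟨a, haA⟩ : A)
      rwa [Subgroup.orderOf_mk] at this
    have h4 : 2 ∣ Nat.card A := by rw [← h2]; exact hqd.trans h3
    exact (Nat.not_even_iff_odd.2 hAodd) (even_iff_two_dvd.2 h4)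
  refine ⟨q, c, hqp, hq2, hordc, hcA, htc, ?_⟩
  intro hcc
  have h1 : t * c = c * t := Subgroup.mem_center_iff.1 hcc t
  have h2 : t * c * t⁻¹ = c := by rw [h1]; group
  rw [htc] at h2
  have h3 : c * c = 1 := by
    nth_rewrite 1 [← h2]
    exact inv_mul_cancel c
  have h4 := odd_sq hco hcc h3
  rw [h4, orderOf_one] at hordc
  exact hqp.one_lt.ne hordc

end core

/-- **Main theorem**, internal form. -/
theorem main (n : ℕ) : ∀ (G : Type) [Group G] [Finite G], Nat.card G = n → Group.IsSolvable G → TS G →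
    ∃ k, Mix G k ∧ 2 ^ k ≤ wt (Nat.card G) := by
  induction n using Nat.strong_induction_on with
  | _ n ih =>
  intro G _ _ hn hsol hTS
  classical
  by_cases hA : ∃ K : Subgroup G, K.Normal ∧ TS K ∧ K ≠ ⊥ ∧ K ≠ ⊤
  · obtain ⟨K, hKn, hKT, hb, htop⟩ := hA
    have hc := card_quot K
    have hK1 : 1 < Nat.card K := by
      rw [Subgroup.one_lt_card_iff_ne_bot]; exact hb
    have hQ1 : 1 < Nat.card (G ⧸ K) := by
      have : Nat.card (G ⧸ K) ≠ 1 := fun h => htop (Subgroup.index_eq_one.1 h)
      have : 0 < Nat.card (G ⧸ K) := Nat.card_pos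
      omega
    obtain ⟨k1, hk1, hb1⟩ := ih (Nat.card K) (by rw [← hn, hc]; nlinarith) K rfl inferInstance hKT
    obtain ⟨k2, hk2, hb2⟩ := ih (Nat.card (G ⧸ K)) (by rw [← hn, hc]; nlinarith) (G ⧸ K) rfl
      inferInstance (hTS.quot K)
    refine ⟨k1 + k2, mix_ext K hk1 hk2, ?_⟩
    rw [pow_add, hc, wt_mul, mul_comm]
    exact Nat.mul_le_mul hb2 hb1
  have hH : ∀ K : Subgroup G, K.Normal → TS K → K = ⊥ ∨ K = ⊤ := by
    intro K hK hT
    by_contra hcon
    push Not at hcon
    exact hA ⟨K, hK, hT, hcon.1, hcon.2⟩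
  have hodd : ∀ K : Subgroup G, K.Normal → K ≠ ⊤ → Odd (Nat.card K) :=
    fun K hK hne => odd_of_proper hH hK hne
  by_cases hG1 : Nat.card G = 1
  · refine ⟨0, ?_, by rw [hG1, wt_odd odd_one]; norm_num⟩
    have hsub : Subsingleton G := (Nat.card_eq_one_iff_unique.1 hG1).1
    have : dlt G = uni G := by
      funext x
      simp [dlt, uni, Subsingleton.elim x 1]
    unfold Mix
    rw [this]
    exact Reach.refl _
  have hev : Even (Nat.card G) := by
    by_contra hne
    rw [Nat.not_even_iff_odd] at hne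
    have h1 : (⊥ : Subgroup G) = ⊤ := hTS ⊥ inferInstance (by rw [Subgroup.index_bot]; exact hne)
    apply hG1
    have h2 : (⊥ : Subgroup G).index = 1 := by rw [h1, Subgroup.index_top]
    rwa [Subgroup.index_bot] at h2
  obtain ⟨t, ht, htne⟩ := exists_inv hev
  have ht1 : Subgroup.normalClosure {t} = ⊤ := by
    by_contra hne
    have h1 := hodd _ inferInstance hne
    exact htne (odd_sq h1 (Subgroup.subset_normalClosure (Set.mem_singleton t)) ht)
  by_cases hcen : Subgroup.center G = ⊤
  · -- abelian case: order two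
    have hcomm : ∀ x y : G, x * y = y * x := by
      intro x y
      have : y ∈ Subgroup.center G := by rw [hcen]; exact Subgroup.mem_top y
      exact Subgroup.mem_center_iff.1 this x
    have hnz : (Subgroup.zpowers t).Normal := by
      constructor
      intro x hx g
      rw [hcomm g x]; simpa using hx
    have hz : Subgroup.zpowers t = ⊤ := by
      rw [eq_top_iff, ← ht1]
      apply Subgroup.normalClosure_le_normal
      intro x hx
      rw [Set.mem_singleton_iff] at hx
      rw [hx]
      exact Subgroup.mem_zpowers t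
    have hord : orderOf t = 2 := by
      rw [orderOf_eq_prime_iff]
      exact ⟨by rw [pow_two]; exact ht, htne⟩
    have hcard : Nat.card G = 2 := by
      rw [← hord, ← Nat.card_zpowers, hz, Subgroup.card_top]
    have hall : ∀ x : G, x = 1 ∨ x = t := by
      intro x
      have hx : x ∈ Subgroup.zpowers t := by rw [hz]; exact Subgroup.mem_top x
      obtain ⟨i, hi⟩ := Subgroup.mem_zpowers_iff.1 hx
      rcases Int.even_or_odd' i with ⟨j, hj | hj⟩
      · left
        rw [← hi, hj, zpow_mul, zpow_two, ht, one_zpow]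
      · right
        rw [← hi, hj, zpow_add, zpow_mul, zpow_two, ht, one_zpow, one_mul, zpow_one]
    refine ⟨1, ?_, by
      rw [hcard]
      have := wt_two_pow 1 odd_one
      norm_num at this
      rw [this]; norm_num⟩
    have h1 : lz t (1 / 2) (dlt G) = uni G := by
      have hti : t⁻¹ = t := by rw [inv_eq_iff_mul_eq_one]; exact ht
      funext x
      simp only [lz, L, uni, dlt, Pi.add_apply, Pi.smul_apply, smul_eq_mul, hti, hcard]
      rcases hall x with h | h
      · subst h
        rw [if_pos rfl, mul_one, mul_one, if_neg htne]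
        norm_num
      · subst h
        rw [if_neg htne, ht, if_pos rfl]
        norm_num
    have h2 := Reach.step (g := t) (p := 1 / 2) (by norm_num) (by norm_num) (dlt G)
    rw [h1] at h2
    exact h2
  obtain ⟨A, hAn, hAodd, hAA, a0, ha0A, hta0, ha0c⟩ := structure_A hsol hodd ht ht1 hcen
  obtain ⟨q, a, hqp, hq2, horda, haA, hta, hac⟩ := structure_q hodd hcen hAodd ha0A hta0 ha0c
  have : Fact q.Prime := ⟨hqp⟩
  have haq : a ^ q = 1 := by rw [← horda]; exact pow_orderOf_eq_one a
  have ha1 : a ≠ 1 := by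
    intro h; rw [h] at hac; exact hac (Subgroup.one_mem _)
  have hcb := cost_bound hqp hq2
  by_cases hab : ∀ g : G, a * (g * a * g⁻¹) = (g * a * g⁻¹) * a
  · -- elementary abelian normal closure
    set M := Subgroup.normalClosure {a} with hM
    have haM : a ∈ M := Subgroup.subset_normalClosure (Set.mem_singleton a)
    have hMne : M ≠ ⊥ := by
      intro h; rw [h, Subgroup.mem_bot] at haM; exact ha1 haM
    have hset : ∀ y ∈ Group.conjugatesOfSet ({a} : Set G), ∃ g : G, y = g * a * g⁻¹ := by
      intro y hy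
      rw [Group.mem_conjugatesOfSet_iff] at hy
      obtain ⟨x, hx, hcj⟩ := hy
      rw [Set.mem_singleton_iff] at hx
      subst hx
      obtain ⟨g, hg⟩ := isConj_iff.1 hcj
      exact ⟨g, hg.symm⟩
    have hcj : ∀ x ∈ Group.conjugatesOfSet ({a} : Set G),
        ∀ y ∈ Group.conjugatesOfSet ({a} : Set G), x * y = y * x := by
      intro x hx y hy
      obtain ⟨g, rfl⟩ := hset x hx
      obtain ⟨h, rfl⟩ := hset y hy
      have e1 : g * a * g⁻¹ * (h * a * h⁻¹)
          = g * (a * ((g⁻¹ * h) * a * (g⁻¹ * h)⁻¹)) * g⁻¹ := by group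
      have e2 : h * a * h⁻¹ * (g * a * g⁻¹)
          = g * (((g⁻¹ * h) * a * (g⁻¹ * h)⁻¹) * a) * g⁻¹ := by group
      rw [e1, e2, hab (g⁻¹ * h)]
    have hMc' : IsMulCommutative M := Subgroup.isMulCommutative_closure hcj
    have hMc : ∀ x ∈ M, ∀ y ∈ M, x * y = y * x := by
      intro x hx y hy
      exact congrArg Subtype.val (hMc'.is_comm.comm (⟨x, hx⟩ : M) ⟨y, hy⟩)
    have hMq : ∀ x ∈ M, x ^ q = 1 := by
      intro x hx
      refine Subgroup.closure_induction (p := fun x _ => x ^ q = 1) ?_ (one_pow q) ?_ ?_ hx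
      · intro y hy
        obtain ⟨g, rfl⟩ := hset y hy
        rw [conj_pow, haq]; group
      · intro x y hx hy h1 h2
        have hxy : Commute x y := hMc x hx y hy
        rw [hxy.mul_pow, h1, h2, one_mul]
      · intro x _ h1
        rw [inv_pow, h1, inv_one]
    have hgen : M ≤ Subgroup.closure {w | w ∈ M ∧ ∃ t : G, t * t = 1 ∧ t * w * t⁻¹ = w⁻¹} := by
      rw [hM]
      change Subgroup.closure (Group.conjugatesOfSet {a}) ≤ _
      rw [Subgroup.closure_le]
      intro y hy
      apply Subgroup.subset_closure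
      refine ⟨Subgroup.subset_closure hy, ?_⟩
      obtain ⟨g, rfl⟩ := hset y hy
      refine ⟨g * t * g⁻¹, ?_, ?_⟩
      · have : g * t * g⁻¹ * (g * t * g⁻¹) = g * (t * t) * g⁻¹ := by group
        rw [this, ht]; group
      · have : g * t * g⁻¹ * (g * a * g⁻¹) * (g * t * g⁻¹)⁻¹ = g * (t * a * t⁻¹) * g⁻¹ := by group
        rw [this, hta]; group
    have hMn : M.Normal := by rw [hM]; infer_instance
    have hM1 : 1 < Nat.card M := by
      rw [Subgroup.one_lt_card_iff_ne_bot]; exact hMne
    have hc := card_quot M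
    have hQ1 : 0 < Nat.card (G ⧸ M) := Nat.card_pos
    obtain ⟨k1, hk1, hb1⟩ := ih (Nat.card (G ⧸ M)) (by rw [← hn, hc]; nlinarith) (G ⧸ M) rfl
      inferInstance (hTS.quot M)
    obtain ⟨F, _, hF⟩ := mix_stage M hk1
    obtain ⟨F', k, hr, hs, hqk⟩ := stage_abel hMq hMc hMn hgen F
    refine ⟨k1 + k * (1 + cost q), hF _ F' hr hs, ?_⟩
    have hModd : Odd (Nat.card M) := by
      have hMA : M ≤ A := by
        rw [hM]
        apply Subgroup.normalClosure_le_normal
        intro x hx
        rw [Set.mem_singleton_iff] at hx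
        rw [hx]; exact haA
      exact hAodd.of_dvd_nat (Subgroup.card_dvd_of_le hMA)
    rw [pow_add, hc, wt_mul, wt_odd hModd]
    refine Nat.mul_le_mul hb1 ?_
    calc 2 ^ (k * (1 + cost q)) = (2 ^ (1 + cost q)) ^ k := by rw [← pow_mul, mul_comm]
      _ ≤ (2 ^ (2 + 2 * cost q)) ^ k := by
        apply Nat.pow_le_pow_left
        apply Nat.pow_le_pow_right (by norm_num)
        omega
      _ ≤ (q ^ 6) ^ k := Nat.pow_le_pow_left hcb k
      _ = (q ^ k) ^ 6 := by rw [← pow_mul, ← pow_mul, mul_comm]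
      _ ≤ Nat.card M ^ 6 := Nat.pow_le_pow_left hqk 6
  · push Not at hab
    obtain ⟨g, hg⟩ := hab
    set nn := g * a * g⁻¹ with hnn
    set z := a * nn * a⁻¹ * nn⁻¹ with hz
    have hz1 : z ≠ 1 := by
      intro h
      apply hg
      have : z * (nn * a) = a * nn := by rw [hz]; group
      rw [h, one_mul] at this
      exact this.symm
    have hzc : z ∈ Subgroup.center G := by
      apply hAA
      have : z = ⁅a, nn⁆ := by rw [hz, commutatorElement_def]
      rw [this]
      exact Subgroup.commutator_mem_commutator haA (hAn.conj_mem a haA g)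
    have hzz : ∀ x, x * z = z * x := Subgroup.mem_center_iff.1 hzc
    have hzq : z ^ q = 1 := by
      have h1 : ∀ i : ℕ, a ^ i * nn = z ^ i * nn * a ^ i := by
        intro i
        induction i with
        | zero => simp
        | succ i ih =>
          have h2 : a * nn = z * nn * a := by rw [hz]; group
          rw [pow_succ, mul_assoc, h2]
          have h3 : a ^ i * (z * nn * a) = (a ^ i * z) * nn * a := by group
          rw [h3, hzz (a ^ i)]
          have h4 : z * a ^ i * nn * a = z * (a ^ i * nn) * a := by group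
          rw [h4, ih, pow_succ' z]
          group
      have h2 := h1 q
      rw [haq, one_mul, mul_one] at h2
      exact (mul_eq_right.1 h2.symm)
    have hordz : orderOf z = q := orderOf_eq_prime hzq hz1
    set M := Subgroup.zpowers z with hM
    have hMn : M.Normal := by
      constructor
      intro x hx g
      obtain ⟨i, rfl⟩ := Subgroup.mem_zpowers_iff.1 hx
      have h1 : g * z ^ i = z ^ i * g := ((show Commute g z from hzz g).zpow_right i).eq
      rw [h1, mul_inv_cancel_right]
      exact hx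
    have hcM : Nat.card M = q := by rw [hM, Nat.card_zpowers, hordz]
    have hc := card_quot M
    have hQ1 : 0 < Nat.card (G ⧸ M) := Nat.card_pos
    obtain ⟨k1, hk1, hb1⟩ := ih (Nat.card (G ⧸ M))
      (by rw [← hn, hc, hcM]; have := hqp.one_lt; nlinarith) (G ⧸ M) rfl
      inferInstance (hTS.quot M)
    obtain ⟨F, _, hF⟩ := mix_stage M hk1
    obtain ⟨F', hr, hs⟩ := stage_comm haq hta ht hzc F
    refine ⟨k1 + (2 + 2 * cost q), hF _ F' hr ?_, ?_⟩
    · rw [hM, Subgroup.zpowers_le]; exact hs
    · have hqodd : Odd q := hqp.odd_of_ne_two hq2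
      rw [pow_add, hc, wt_mul, hcM, wt_odd hqodd]
      exact Nat.mul_le_mul hb1 hcb

end Pool.Agent.Helper75.MX
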