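import Pool.Agent.Helper75.MX.Final

/-!
MP_a2f62e_al: which finite solvable groups are mixable (not a hand-in: contained in the hand-in
QuasisimpleReduction of helper70).
-/

set_option autoImplicit false

namespace Pool.Agent.Helper75.MX

/-- A finite solvable group is mixable iff it has no nontrivial quotient of odd order. -/
theorem solvable_mixable : ∀ (G : Type) [Group G] [Finite G], Group.IsSolvable G →
    (Mixable G ↔ ∀ N : Subgroup G, N.Normal → Odd N.index → N = ⊤) := by
  intro G _ _ hsol
  exact (solvable_bound G hsol).1

end Pool.Agent.Helper75.MX
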