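import Pool.Agent.Helper75.MX.Block

/-!
Stabilizers of functions and the stage lemmas.
-/

set_option autoImplicit false
set_option linter.unusedSectionVars false

namespace Pool.Agent.Helper75.MX

open Finset

variable {G : Type} [Group G]

/-- the left stabilizer of a function -/
def stab (f : G → ℝ) : Subgroup G where
  carrier := {g | L g f = f}
  one_mem' := L_one f
  mul_mem' := by
    intro a b ha hb
    simp only [Set.mem_ofPred_eq] at *
    rw [L_mul, hb, ha]
  inv_mem' := by
    intro a ha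
    simp only [Set.mem_ofPred_eq] at *
    conv_lhs => rw [← ha]
    rw [← L_mul, inv_mul_cancel, L_one]

theorem mem_stab {f : G → ℝ} {g : G} : g ∈ stab f ↔ L g f = f := Iff.rfl

theorem mem_stab_L {f : G → ℝ} {t x : G} : x ∈ stab (L t f) ↔ t⁻¹ * x * t ∈ stab f := by
  rw [mem_stab, mem_stab, ← L_mul]
  constructor
  · intro h
    rw [mul_assoc, L_mul, h, ← L_mul, inv_mul_cancel, L_one]
  · intro h
    have : x * t = t * (t⁻¹ * x * t) := by group
    rw [this, L_mul, h]

theorem mem_stab_half {f h : G → ℝ} {x : G} (h1 : x ∈ stab f) (h2 : x ∈ stab h) :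
    x ∈ stab ((1 / 2 : ℝ) • (f + h)) := by
  rw [mem_stab] at *
  rw [L_smul, L_add, h1, h2]

theorem lz_half (t : G) (f : G → ℝ) : lz t (1 / 2) f = (1 / 2 : ℝ) • (f + L t f) := by
  unfold lz
  rw [smul_add]
  norm_num

theorem t_mem_stab_half {t : G} (ht : t * t = 1) (f : G → ℝ) :
    t ∈ stab ((1 / 2 : ℝ) • (f + L t f)) := by
  rw [mem_stab, L_smul, L_add, ← L_mul, ht, L_one, add_comm]

theorem av_add (w : G) (q : ℕ) (f h : G → ℝ) : av w q (f + h) = av w q f + av w q h := by
  unfold av
  simp only [L_add, Finset.sum_add_distrib, smul_add]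

theorem av_smul (w : G) (q : ℕ) (c : ℝ) (f : G → ℝ) : av w q (c • f) = c • av w q f := by
  unfold av
  simp only [L_smul]
  rw [← Finset.smul_sum, smul_comm]

theorem self_mem_stab_av {w : G} {q : ℕ} (hw : w ^ q = 1) (f : G → ℝ) :
    w ∈ stab (av w q f) := by
  rw [mem_stab]
  unfold av
  rw [L_smul, L_sum]
  congr 1
  have h1 : ∑ j ∈ range q, L w (L (w ^ j) f) = ∑ j ∈ range q, L (w ^ (j + 1)) f := by
    apply Finset.sum_congr rfl
    intro j _
    rw [← L_mul, pow_succ']
  rw [h1]
  have h2 := Finset.sum_range_succ (fun j => L (w ^ j) f) q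
  have h3 := Finset.sum_range_succ' (fun j => L (w ^ j) f) q
  rw [h2, hw, pow_zero] at h3
  exact (add_right_cancel h3).symm

theorem mem_stab_av {w x : G} {q : ℕ} (hx : x * w = w * x) {f : G → ℝ} (h : x ∈ stab f) :
    x ∈ stab (av w q f) := by
  rw [mem_stab] at *
  unfold av
  rw [L_smul, L_sum]
  congr 1
  apply Finset.sum_congr rfl
  intro j _
  have : x * w ^ j = w ^ j * x := ((show Commute x w from hx).pow_right j).eq
  rw [← L_mul, this, L_mul, h]

theorem av_L {w t : G} {q : ℕ} (hw : w ^ q = 1) (ht : t * w * t⁻¹ = w⁻¹) (f : G → ℝ) :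
    av w q (L t f) = L t (av w q f) := by
  unfold av
  rw [L_smul, L_sum]
  congr 1
  set E : ℤ → G → ℝ := fun x => L (t * w ^ x) f with hE
  have hper : ∀ x, E (x + q) = E x := by
    intro x
    simp only [hE]
    rw [zpow_add, zpow_natCast, hw, mul_one]
  have h1 : ∑ j ∈ range q, L t (L (w ^ j) f) = S E 0 q := by
    unfold S
    apply Finset.sum_congr rfl
    intro j _
    simp only [hE]
    rw [← L_mul, zero_add, zpow_natCast]
  have h2 : ∑ j ∈ range q, L (w ^ j) (L t f) = S E (1 - q) q := by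
    unfold S
    rw [← Finset.sum_range_reflect]
    apply Finset.sum_congr rfl
    intro j hj
    have hj' := Finset.mem_range.1 hj
    simp only [hE]
    rw [← L_mul]
    congr 1
    have e : ((1 - q : ℤ) + j) = -((q - 1 - j : ℕ) : ℤ) := by omega
    rw [e, zpow_neg, zpow_natCast, ← inv_pow, ← ht, conj_pow]
    have : ∀ y : G, y * t = t * (t⁻¹ * y * t) := by intro y; group
    rw [this]
    congr 1
    have ht' : t⁻¹ * w * t = w⁻¹ := by
      have := congrArg (fun y => t⁻¹ * y⁻¹ * t) ht
      simp only [mul_inv_rev, inv_inv] at this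
      rw [← this]; group
    have hh : t⁻¹ * w ^ (q - 1 - j) * t = (t⁻¹ * w * t) ^ (q - 1 - j) := by
      have := conj_pow (i := q - 1 - j) (a := t⁻¹) (b := w)
      rw [inv_inv] at this
      exact this.symm
    rw [hh, ht', ← ht, conj_pow]
  rw [h1, h2, S_period hper]

/-- The second stage lemma: a central commutator. -/
theorem stage_comm {q : ℕ} [Fact q.Prime] {a t n : G} (ha : a ^ q = 1) (hta : t * a * t⁻¹ = a⁻¹)
    (ht : t * t = 1) (hz : a * n * a⁻¹ * n⁻¹ ∈ Subgroup.center G) (f : G → ℝ) :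
    ∃ f', Reach (2 + 2 * cost q) f f' ∧ a * n * a⁻¹ * n⁻¹ ∈ stab f' := by
  set z := a * n * a⁻¹ * n⁻¹ with hzdef
  have hzc : ∀ x, x * z = z * x := Subgroup.mem_center_iff.1 hz
  set t' := n * t * n⁻¹ with ht'def
  set a' := n * a * n⁻¹ with ha'def
  have ha' : a' ^ q = 1 := by rw [ha'def, conj_pow, ha]; group
  have ht' : t' * t' = 1 := by
    have : t' * t' = n * (t * t) * n⁻¹ := by rw [ht'def]; group
    rw [this, ht]; group
  have hta' : t' * a' * t'⁻¹ = a'⁻¹ := by
    have : t' * a' * t'⁻¹ = n * (t * a * t⁻¹) * n⁻¹ := by rw [ht'def, ha'def]; group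
    rw [this, hta, ha'def]; group
  have haa' : a = z * a' := by
    have h1 : a = a * n * a⁻¹ * n⁻¹ * (n * a * n⁻¹) := by group
    exact h1
  set F1 := (1 / 2 : ℝ) • (f + L t f) with hF1
  have r1 : Reach 1 f F1 := by
    rw [hF1, ← lz_half]; exact Reach.step (by norm_num) (by norm_num) f
  have s1 : L t F1 = F1 := t_mem_stab_half ht f
  set F2 := av a q F1 with hF2
  have r2 : Reach (cost q) F1 F2 := reach_av ha hta s1
  set F3 := (1 / 2 : ℝ) • (F2 + L t' F2) with hF3
  have r3 : Reach 1 F2 F3 := by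
    rw [hF3, ← lz_half]; exact Reach.step (by norm_num) (by norm_num) F2
  have s3 : L t' F3 = F3 := t_mem_stab_half ht' F2
  set F4 := av a' q F3 with hF4
  have r4 : Reach (cost q) F3 F4 := reach_av ha' hta' s3
  refine ⟨F4, ?_, ?_⟩
  · have := ((r1.trans r2).trans r3).trans r4
    exact this.mono (by omega)
  · set Q := av a' q F2 with hQ
    have e4 : F4 = (1 / 2 : ℝ) • (Q + L t' Q) := by
      rw [hF4, hF3, av_smul, av_add, av_L ha' hta']
    have m1 : a' ∈ stab Q := self_mem_stab_av ha' F2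
    have m2 : a ∈ stab Q := by
      apply mem_stab_av _ (self_mem_stab_av ha F1)
      have e : a' = z⁻¹ * a := by
        rw [haa']
        group
      have hzi : ∀ x, x * z⁻¹ = z⁻¹ * x := by
        intro x
        have := hzc x
        have h2 : z⁻¹ * (x * z) * z⁻¹ = z⁻¹ * (z * x) * z⁻¹ := by rw [this]
        have h3 : z⁻¹ * (x * z) * z⁻¹ = z⁻¹ * x := by group
        have h4 : z⁻¹ * (z * x) * z⁻¹ = x * z⁻¹ := by group
        rw [← h3, h2, h4]
      rw [e]
      calc a * (z⁻¹ * a) = (a * z⁻¹) * a := by group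
        _ = (z⁻¹ * a) * a := by rw [hzi]
    have m3 : z ∈ stab Q := by
      have e : z = a * a'⁻¹ := by
        rw [eq_mul_inv_iff_mul_eq]; exact haa'.symm
      rw [e]
      exact (stab Q).mul_mem m2 ((stab Q).inv_mem m1)
    rw [e4]
    apply mem_stab_half m3
    rw [mem_stab_L]
    have : t'⁻¹ * z * t' = z := by
      have := hzc t'⁻¹
      rw [this]; group
    rw [this]
    exact m3

end Pool.Agent.Helper75.MX
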