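import Pool.Agent.Helper75.MX.Stage

/-!
The stage lemma for an elementary abelian normal subgroup generated by elements inverted by
conjugates of an involution.
-/

set_option autoImplicit false
set_option linter.unusedSectionVars false

namespace Pool.Agent.Helper75.MX

open Finset

variable {G : Type} [Group G] [Finite G]

theorem card_grow {q : ℕ} [Fact q.Prime] {M X Y : Subgroup G} (hM : ∀ x ∈ M, x ^ q = 1)
    (hX : X ≤ M) (hY : Y ≤ M) (hXY : X < Y) : q * Nat.card X ≤ Nat.card Y := by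
  have hp : ∀ Z : Subgroup G, Z ≤ M → IsPGroup q Z := by
    intro Z hZ g
    refine ⟨1, ?_⟩
    rw [pow_one]
    exact Subtype.ext (hM _ (hZ g.2))
  obtain ⟨a, ha⟩ := IsPGroup.iff_card.1 (hp X hX)
  obtain ⟨b, hb⟩ := IsPGroup.iff_card.1 (hp Y hY)
  have hlt : Nat.card X < Nat.card Y := by
    have h1 : Nat.card X ≤ Nat.card Y := Nat.card_le_card_of_injective _
      (Subgroup.inclusion_injective hXY.le)
    rcases h1.lt_or_eq with h | h
    · exact h
    · exact absurd (Subgroup.eq_of_le_of_card_ge hXY.le h.ge) hXY.ne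
  rw [ha, hb] at *
  have hab : a < b := (Nat.pow_lt_pow_iff_right (Fact.out : q.Prime).one_lt).1 hlt
  calc q * q ^ a = q ^ (a + 1) := by rw [pow_succ']
    _ ≤ q ^ b := Nat.pow_le_pow_right (Fact.out : q.Prime).pos hab

/-- inner loop: one involution -/
theorem inner {q : ℕ} [Fact q.Prime] {M : Subgroup G} (hM : ∀ x ∈ M, x ^ q = 1)
    (hc : ∀ x ∈ M, ∀ y ∈ M, x * y = y * x) {t : G} (ht : t * t = 1) :
    ∀ (n : ℕ) (X : Subgroup G) (P : G → ℝ), Nat.card M - Nat.card X ≤ n → X ≤ M → X ≤ stab P →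
      ∃ (X' : Subgroup G) (P' : G → ℝ) (k : ℕ), X ≤ X' ∧ X' ≤ M ∧ X' ≤ stab P' ∧
        Reach (k * cost q) ((1 / 2 : ℝ) • (P + L t P)) ((1 / 2 : ℝ) • (P' + L t P')) ∧
        q ^ k * Nat.card X ≤ Nat.card X' ∧ (k = 0 → X' = X) ∧
        ∀ w ∈ M, t * w * t⁻¹ = w⁻¹ → w ∈ X' := by
  intro n
  induction n with
  | zero =>
    intro X P hn hXM hXP
    have hX : X = M := by
      apply Subgroup.eq_of_le_of_card_ge hXM
      omega
    refine ⟨X, P, 0, le_rfl, hXM, hXP, ?_, by simp, fun _ => rfl, ?_⟩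
    · rw [zero_mul]; exact Reach.refl _
    · intro w hw _; rw [hX]; exact hw
  | succ n ih =>
    intro X P hn hXM hXP
    by_cases hall : ∀ w ∈ M, t * w * t⁻¹ = w⁻¹ → w ∈ X
    · refine ⟨X, P, 0, le_rfl, hXM, hXP, ?_, by simp, fun _ => rfl, hall⟩
      rw [zero_mul]; exact Reach.refl _
    push Not at hall
    obtain ⟨w, hwM, hwt, hwX⟩ := hall
    set X1 := X ⊔ Subgroup.zpowers w with hX1
    have hX1M : X1 ≤ M := sup_le hXM (by rw [Subgroup.zpowers_le]; exact hwM)
    have hlt : X < X1 := by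
      refine lt_of_le_of_ne le_sup_left ?_
      intro h
      apply hwX
      rw [h]
      exact (le_sup_right : Subgroup.zpowers w ≤ X1) (Subgroup.mem_zpowers w)
    have hcard := card_grow hM hXM hX1M hlt
    set P1 := av w q P with hP1
    have hX1P : X1 ≤ stab P1 := by
      refine sup_le ?_ ?_
      · intro x hx
        exact mem_stab_av (hc x (hXM hx) w hwM) (hXP hx)
      · rw [Subgroup.zpowers_le]
        exact self_mem_stab_av (hM w hwM) P
    have hle : Nat.card X1 ≤ Nat.card M :=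
      Nat.card_le_card_of_injective _ (Subgroup.inclusion_injective hX1M)
    have hXpos : 0 < Nat.card X := Nat.card_pos
    have hq2 : 2 ≤ q := (Fact.out : q.Prime).two_le
    have hgt : Nat.card X < Nat.card X1 := by nlinarith
    obtain ⟨X', P', k, h1, h2, h3, h4, h5, _, h7⟩ := ih X1 P1 (by omega) hX1M hX1P
    refine ⟨X', P', k + 1, hlt.le.trans h1, h2, h3, ?_, ?_, by omega, h7⟩
    · have r1 : Reach (cost q) ((1 / 2 : ℝ) • (P + L t P)) ((1 / 2 : ℝ) • (P1 + L t P1)) := by
        have := reach_av (hM w hwM) hwt (mem_stab.1 (t_mem_stab_half ht P))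
        rw [av_smul, av_add, av_L (hM w hwM) hwt] at this
        exact this
      exact (r1.trans h4).mono (by ring_nf; omega)
    · calc q ^ (k + 1) * Nat.card X = q ^ k * (q * Nat.card X) := by ring
        _ ≤ q ^ k * Nat.card X1 := Nat.mul_le_mul_left _ hcard
        _ ≤ Nat.card X' := h5

/-- outer loop over the conjugates of the involution -/
theorem outer {q : ℕ} [Fact q.Prime] {M : Subgroup G} (hM : ∀ x ∈ M, x ^ q = 1)
    (hc : ∀ x ∈ M, ∀ y ∈ M, x * y = y * x) (hn : M.Normal)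
    (hgen : M ≤ Subgroup.closure {w | w ∈ M ∧ ∃ t : G, t * t = 1 ∧ t * w * t⁻¹ = w⁻¹}) :
    ∀ (n : ℕ) (X : Subgroup G) (f : G → ℝ), Nat.card M - Nat.card X ≤ n → X ≤ M → X ≤ stab f →
      ∃ (f' : G → ℝ) (k : ℕ), Reach (k * (1 + cost q)) f f' ∧ M ≤ stab f' ∧
        q ^ k * Nat.card X ≤ Nat.card M := by
  intro n
  induction n with
  | zero =>
    intro X f hn' hXM hXf
    have hX : X = M := by
      apply Subgroup.eq_of_le_of_card_ge hXM
      omega
    subst hX
    exact ⟨f, 0, by rw [zero_mul]; exact Reach.refl _, hXf, by simp⟩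
  | succ n ih =>
    intro X f hn' hXM hXf
    by_cases hMX : M ≤ X
    · have hX : X = M := le_antisymm hXM hMX
      subst hX
      exact ⟨f, 0, by rw [zero_mul]; exact Reach.refl _, hXf, by simp⟩
    have hex : ∃ w, (w ∈ M ∧ ∃ t : G, t * t = 1 ∧ t * w * t⁻¹ = w⁻¹) ∧ w ∉ X := by
      by_contra hcon
      push Not at hcon
      apply hMX
      refine hgen.trans ?_
      rw [Subgroup.closure_le]
      intro w hw
      exact hcon w hw
    obtain ⟨w, ⟨hwM, t, ht, hwt⟩, hwX⟩ := hex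
    obtain ⟨X', P', k, h1, h2, h3, h4, h5, h6, h7⟩ :=
      inner hM hc ht (Nat.card M - Nat.card X) X f le_rfl hXM hXf
    have hwX' : w ∈ X' := h7 w hwM hwt
    have hk : 1 ≤ k := by
      rcases Nat.eq_zero_or_pos k with h0 | h0
      · exfalso; apply hwX; rw [← h6 h0]; exact hwX'
      · exact h0
    set F' := (1 / 2 : ℝ) • (P' + L t P') with hF'
    have hX'F : X' ≤ stab F' := by
      intro x hx
      apply mem_stab_half (h3 hx)
      rw [mem_stab_L]
      have hti : t⁻¹ = t := by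
        rw [inv_eq_iff_mul_eq_one]; exact ht
      have hxM : x ∈ M := h2 hx
      have hconj : t⁻¹ * x * t ∈ M := by
        have := hn.conj_mem x hxM t⁻¹
        rwa [inv_inv] at this
      have hinv : t * (t⁻¹ * x * t * x⁻¹) * t⁻¹ = (t⁻¹ * x * t * x⁻¹)⁻¹ := by
        rw [hti]
        have : t * (t * x * t * x⁻¹) * t = (t * t) * x * (t * x⁻¹ * t) := by group
        rw [this, ht, one_mul]
        have h8 : (t * x * t * x⁻¹)⁻¹ = x * (t⁻¹ * x⁻¹ * t⁻¹) := by group
        rw [h8, hti]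
      have hmem : t⁻¹ * x * t * x⁻¹ ∈ X' := h7 _ (M.mul_mem hconj (M.inv_mem hxM)) hinv
      have e : t⁻¹ * x * t = (t⁻¹ * x * t * x⁻¹) * x := by group
      rw [e]
      exact h3 (X'.mul_mem hmem hx)
    have hlt : X < X' := lt_of_le_of_ne h1 (fun h => hwX (by rw [h]; exact hwX'))
    have hcard := card_grow hM hXM h2 hlt
    have hle : Nat.card X' ≤ Nat.card M :=
      Nat.card_le_card_of_injective _ (Subgroup.inclusion_injective h2)
    have hXpos : 0 < Nat.card X := Nat.card_pos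
    have hq2 : 2 ≤ q := (Fact.out : q.Prime).two_le
    have hgt : Nat.card X < Nat.card X' := by nlinarith
    obtain ⟨f', k', r', hs', hb'⟩ := ih X' F' (by omega) h2 hX'F
    refine ⟨f', k + k', ?_, hs', ?_⟩
    · have r0 : Reach 1 f ((1 / 2 : ℝ) • (f + L t f)) := by
        rw [← lz_half]; exact Reach.step (by norm_num) (by norm_num) f
      refine ((r0.trans h4).trans r').mono ?_
      nlinarith
    · calc q ^ (k + k') * Nat.card X = q ^ k' * (q ^ k * Nat.card X) := by ring
        _ ≤ q ^ k' * Nat.card X' := Nat.mul_le_mul_left _ h5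
        _ ≤ Nat.card M := hb'

/-- stage lemma for elementary abelian normal subgroups -/
theorem stage_abel {q : ℕ} [Fact q.Prime] {M : Subgroup G} (hM : ∀ x ∈ M, x ^ q = 1)
    (hc : ∀ x ∈ M, ∀ y ∈ M, x * y = y * x) (hn : M.Normal)
    (hgen : M ≤ Subgroup.closure {w | w ∈ M ∧ ∃ t : G, t * t = 1 ∧ t * w * t⁻¹ = w⁻¹})
    (f : G → ℝ) :
    ∃ (f' : G → ℝ) (k : ℕ), Reach (k * (1 + cost q)) f f' ∧ M ≤ stab f' ∧
      q ^ k ≤ Nat.card M := by
  obtain ⟨f', k, h1, h2, h3⟩ := outer hM hc hn hgen _ ⊥ f le_rfl bot_le bot_le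
  refine ⟨f', k, h1, h2, ?_⟩
  simpa using h3

end Pool.Agent.Helper75.MX
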